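import Pool.Agent.Helper597_mos.Moser2

/-!
# Means over parallelepipeds
-/

set_option autoImplicit false
set_option linter.unusedSectionVars false

open Set Filter Topology MeasureTheory
open scoped ContDiff NNReal

noncomputable section

namespace Pool.Agent.Helper597_mos

open Pool.Agent.Helper597_torsymp

variable {n : ℕ}

theorem hasFDerivAt_cube {E : Type} [NormedAddCommGroup E] [NormedSpace ℝ E]
    [FiniteDimensional ℝ E] {G : Type} [NormedAddCommGroup G] [NormedSpace ℝ G] [CompleteSpace G]
    {F : E → V n → G} (hF : ContDiff ℝ 1 (fun p : E × V n => F p.1 p.2)) (x : E) :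
    HasFDerivAt (fun x => ∫ y in Icc (0 : V n) 1, F x y)
      (∫ y in Icc (0 : V n) 1, (fderiv ℝ (fun p : E × V n => F p.1 p.2) (x, y)).comp
        (ContinuousLinearMap.inl ℝ E (V n))) x := by
  have hproper : ProperSpace E := FiniteDimensional.proper_real E
  have hcF : Continuous (fun p : E × V n => F p.1 p.2) := hF.continuous
  set D : E → V n → (E →L[ℝ] G) := fun x t =>
    (fderiv ℝ (fun p : E × V n => F p.1 p.2) (x, t)).comp (ContinuousLinearMap.inl ℝ E (V n))
    with hD
  have hDcont : Continuous (fun p : E × V n => D p.1 p.2) :=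
    ((hF.continuous_fderiv (by norm_num))).clm_comp continuous_const
  have hder : ∀ x t, HasFDerivAt (fun x => F x t) (D x t) x := by
    intro x t
    have h1 : HasFDerivAt (fun p : E × V n => F p.1 p.2)
        (fderiv ℝ (fun p : E × V n => F p.1 p.2) (x, t)) (x, t) :=
      (hF.differentiable (by simp) (x, t)).hasFDerivAt
    have h2 : HasFDerivAt (𝕜 := ℝ) (fun e : E => (e, t)) (ContinuousLinearMap.inl ℝ E (V n)) x :=
      hasFDerivAt_prodMk_left x t
    exact HasFDerivAt.comp (g := fun p : E × V n => F p.1 p.2) (f := fun e : E => (e, t)) x h1 h2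
  obtain ⟨C, hC⟩ := ((isCompact_closedBall x 1).prod (isCompact_Icc (a := (0 : V n)) (b := 1))
    ).exists_bound_of_continuousOn hDcont.continuousOn
  have hint : ∀ {W : Type} [NormedAddCommGroup W] {f : V n → W}, Continuous f →
      Integrable f (volume.restrict (Icc (0 : V n) 1)) := fun hf =>
    hf.continuousOn.integrableOn_compact isCompact_Icc
  refine hasFDerivAt_integral_of_dominated_of_fderiv_le (𝕜 := ℝ) (F := F) (F' := D) (x₀ := x)
    (μ := volume.restrict (Icc (0 : V n) 1)) (s := Metric.closedBall x 1) (bound := fun _ => C)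
    (Metric.closedBall_mem_nhds x one_pos) ?_ ?_ ?_ ?_ ?_ ?_
  · refine Eventually.of_forall fun y => ?_
    exact (hint (hcF.comp (continuous_const.prodMk continuous_id))).aestronglyMeasurable
  · exact hint (hcF.comp (continuous_const.prodMk continuous_id))
  · exact (hint (hDcont.comp (continuous_const.prodMk continuous_id))).aestronglyMeasurable
  · refine (ae_restrict_iff' measurableSet_Icc).2 (Eventually.of_forall fun t ht y hy => ?_)
    exact hC (y, t) ⟨hy, ht⟩
  · exact hint continuous_const
  · exact Eventually.of_forall fun t y _ => hder y t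

theorem contDiff_cube_nat {E : Type} [NormedAddCommGroup E] [NormedSpace ℝ E]
    [FiniteDimensional ℝ E] (m : ℕ) : ∀ (G : Type) [NormedAddCommGroup G]
    [NormedSpace ℝ G] [CompleteSpace G] (F : E → V n → G),
    ContDiff ℝ m (fun p : E × V n => F p.1 p.2) →
      ContDiff ℝ m (fun x => ∫ y in Icc (0 : V n) 1, F x y) := by
  induction m with
  | zero =>
    intro G _ _ _ F hF
    have h0 : Continuous (Function.uncurry F) := hF.continuous
    exact contDiff_zero.mpr (continuous_parametric_integral_of_continuous h0 isCompact_Icc)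
  | succ m ih =>
    intro G _ _ _ F hF
    have hF' : ContDiff ℝ ((m : WithTop ℕ∞) + 1) (fun p : E × V n => F p.1 p.2) := by
      exact_mod_cast hF
    set D : E → V n → (E →L[ℝ] G) := fun x t =>
      (fderiv ℝ (fun p : E × V n => F p.1 p.2) (x, t)).comp
        (ContinuousLinearMap.inl ℝ E (V n)) with hD
    have hDc : ContDiff ℝ m (fun p : E × V n => D p.1 p.2) := by
      have h1 : ContDiff ℝ m (fderiv ℝ (fun p : E × V n => F p.1 p.2)) :=
        hF'.fderiv_right le_rfl
      exact h1.clm_comp contDiff_const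
    have key : ContDiff ℝ ((m : WithTop ℕ∞) + 1) (fun x => ∫ y in Icc (0 : V n) 1, F x y) := by
      rw [contDiff_succ_iff_hasFDerivAt]
      exact ⟨fun x => ∫ y in Icc (0 : V n) 1, D x y, ih (E →L[ℝ] G) D hDc, fun x =>
        hasFDerivAt_cube (hF'.of_le (by simp)) x⟩
    exact_mod_cast key

/-- smoothness of integrals over the cube -/
theorem contDiff_cube {E : Type} [NormedAddCommGroup E] [NormedSpace ℝ E]
    [FiniteDimensional ℝ E] {G : Type} [NormedAddCommGroup G] [NormedSpace ℝ G] [CompleteSpace G]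
    {F : E → V n → G} (hF : ContDiff ℝ ∞ (fun p : E × V n => F p.1 p.2)) :
    ContDiff ℝ ∞ (fun x => ∫ y in Icc (0 : V n) 1, F x y) :=
  contDiff_infty.2 fun m => contDiff_cube_nat m G F (contDiff_infty.1 hF m)

theorem integrable_cube {W : Type} [NormedAddCommGroup W] {f : V n → W} (hf : Continuous f) :
    Integrable f (volume.restrict (Icc (0 : V n) 1)) :=
  hf.continuousOn.integrableOn_compact isCompact_Icc

theorem volume_cube : volume (Icc (0 : V n) 1) = 1 := by
  rw [Real.volume_Icc_pi]
  simp

instance : IsProbabilityMeasure (volume.restrict (Icc (0 : V n) 1)) :=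
  ⟨by rw [Measure.restrict_apply_univ, volume_cube]⟩

/-- the mean of the derivative of `F` over the parallelepiped `x + T [0, 1]^{2n}` -/
def mean (F : V n → V n) (T : V n →L[ℝ] V n) (x : V n) : V n →L[ℝ] V n :=
  ∫ y in Icc (0 : V n) 1, fderiv ℝ F (x + T y)

/-- the family of the means of a map -/
def avg (F : V n → V n) (T : ℝ → V n →L[ℝ] V n) (p : ℝ × V n) : V n :=
  ∫ y in Icc (0 : V n) 1, F (p.2 + T p.1 y)

variable {F : V n → V n} {T : ℝ → V n →L[ℝ] V n}

theorem avg_contDiff (hF : ContDiff ℝ ∞ F) (hT : ContDiff ℝ ∞ T) : ContDiff ℝ ∞ (avg F T) := by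
  refine contDiff_cube (F := fun (p : ℝ × V n) (y : V n) => F (p.2 + T p.1 y)) ?_
  have h1 : ContDiff ℝ ∞ fun p : (ℝ × V n) × V n => T p.1.1 :=
    hT.comp (contDiff_fst.comp contDiff_fst)
  exact hF.comp ((contDiff_snd.comp contDiff_fst).add (h1.clm_apply contDiff_snd))

theorem avg_hasFDerivAt (hF : ContDiff ℝ ∞ F) (s : ℝ) (x : V n) :
    HasFDerivAt (fun x => avg F T (s, x)) (mean F (T s) x) x := by
  have h0 : ContDiff ℝ ∞ fun p : V n × V n => F (p.1 + T s p.2) :=
    hF.comp (contDiff_fst.add ((T s).contDiff.comp contDiff_snd))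
  have h1 := hasFDerivAt_cube (F := fun (x : V n) (y : V n) => F (x + T s y))
    (h0.of_le (by simp)) x
  refine h1.congr_fderiv ?_
  unfold mean
  congr 1
  funext y
  have h2 : HasFDerivAt (fun p : V n × V n => F (p.1 + T s p.2))
      ((fderiv ℝ F (x + T s y)).comp ((ContinuousLinearMap.fst ℝ (V n) (V n)) +
        (T s).comp (ContinuousLinearMap.snd ℝ (V n) (V n)))) (x, y) := by
    have h3 : HasFDerivAt F (fderiv ℝ F (x + T s y)) ((x, y).1 + T s (x, y).2) :=
      (hF.differentiable (by simp) _).hasFDerivAt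
    exact h3.comp (x, y) (hasFDerivAt_fst.add ((T s).hasFDerivAt.comp (x, y) hasFDerivAt_snd))
  rw [h2.fderiv]
  ext v
  simp

theorem dx_avg (hF : ContDiff ℝ ∞ F) (hT : ContDiff ℝ ∞ T) (s : ℝ) (x : V n) :
    dx (avg F T) (s, x) = mean F (T s) x :=
  (hasFDerivAt_slice ((avg_contDiff hF hT).differentiable (by simp)) s x).unique
    (avg_hasFDerivAt hF s x)

theorem avg_add {A : Matrix (Fin n ⊕ Fin n) (Fin n ⊕ Fin n) ℤ} (hF : ContDiff ℝ ∞ F)
    (he : ∀ (x : V n) (k : Fin n ⊕ Fin n → ℤ), F (x + lat k) = F x + lat (A.mulVec k))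
    (s : ℝ) (x : V n) (k : Fin n ⊕ Fin n → ℤ) :
    avg F T (s, x + lat k) = avg F T (s, x) + lat (A.mulVec k) := by
  unfold avg
  simp only
  have h1 : ∀ y, F (x + lat k + T s y) = F (x + T s y) + lat (A.mulVec k) := fun y => by
    rw [add_right_comm, he]
  simp only [h1]
  have h2 : Continuous fun y => F (x + T s y) :=
    hF.continuous.comp (continuous_const.add (T s).continuous)
  rw [integral_add (integrable_cube h2) (integrable_cube continuous_const)]
  simp

theorem avg_zero (h0 : T 0 = 0) (x : V n) : avg F T (0, x) = F x := by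
  unfold avg
  simp [h0]

end Pool.Agent.Helper597_mos
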