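import Pool.Agent.Helper597_mos.Flow0
import Pool.Agent.Helper597_torsymp.Iso

/-!
# Periodic functions with two parameters in a compact interval
-/

set_option autoImplicit false
set_option linter.unusedSectionVars false

open Set Filter Topology
open scoped ContDiff NNReal

noncomputable section

namespace Pool.Agent.Helper597_mos

open Pool.Agent.Helper597_torsymp

variable {n : ℕ}

/-- the projection to the unit interval -/
def cl (s : ℝ) : ℝ := (projIcc (0 : ℝ) 1 zero_le_one s : ℝ)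

theorem cl_mem (s : ℝ) : cl s ∈ Icc (0 : ℝ) 1 := (projIcc (0 : ℝ) 1 zero_le_one s).2

theorem cl_lip : LipschitzWith 1 cl := by
  have h : cl = fun s => max 0 (min 1 s) := by
    funext s
    unfold cl
    rw [coe_projIcc]
  rw [h]
  exact (LipschitzWith.id.const_min 1).const_max 0

/-- the parameter space -/
abbrev EE (n : ℕ) : Type := ℝ × ℝ × V n

/-- the translation by a lattice vector -/
def tr (k : Fin n ⊕ Fin n → ℤ) : EE n := (0, 0, lat k)

variable {G : Type} [NormedAddCommGroup G] [NormedSpace ℝ G]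

theorem bdd_of_periodic {f : EE n → G} (hf : Continuous f)
    (hp : ∀ s r x (k : Fin n ⊕ Fin n → ℤ), f (s, r, x + lat k) = f (s, r, x)) :
    ∃ C : ℝ≥0, ∀ s ∈ Icc (0 : ℝ) 1, ∀ r ∈ Icc (0 : ℝ) 1, ∀ x, ‖f (s, r, x)‖ ≤ C := by
  have hc : IsCompact (Icc (0 : ℝ) 1 ×ˢ (Icc (0 : ℝ) 1 ×ˢ Icc (0 : V n) 1)) :=
    isCompact_Icc.prod (isCompact_Icc.prod isCompact_Icc)
  obtain ⟨C, hC⟩ := hc.exists_bound_of_continuousOn hf.continuousOn
  refine ⟨C.toNNReal, fun s hs r hr x => ?_⟩
  obtain ⟨k, hk⟩ := exists_frac x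
  rw [← hp s r x k]
  exact (hC (s, r, x + lat k) ⟨hs, hr, hk⟩).trans (Real.le_coe_toNNReal C)

theorem lip_of_periodic {f : EE n → G} (hf : ContDiff ℝ ∞ f)
    (hp : ∀ s r x (k : Fin n ⊕ Fin n → ℤ), f (s, r, x + lat k) = f (s, r, x))
    (hcl : ∀ s r x, f (s, r, x) = f (cl s, cl r, x)) :
    (∃ M : ℝ≥0, ∀ z, ‖f z‖ ≤ M) ∧ ∃ K : ℝ≥0, LipschitzWith K f := by
  constructor
  · obtain ⟨M, hM⟩ := bdd_of_periodic hf.continuous hp
    refine ⟨M, fun z => ?_⟩
    obtain ⟨s, r, x⟩ := z
    rw [hcl]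
    exact hM _ (cl_mem s) _ (cl_mem r) x
  · have hd : Differentiable ℝ f := hf.differentiable (by simp)
    have hfd : Continuous (fderiv ℝ f) := hf.continuous_fderiv (by simp)
    have hpd : ∀ s r x (k : Fin n ⊕ Fin n → ℤ), fderiv ℝ f (s, r, x + lat k) =
        fderiv ℝ f (s, r, x) := by
      intro s r x k
      have h1 : (fun z => f (z + tr k)) = f := by
        funext z
        obtain ⟨s, r, x⟩ := z
        have : ((s, r, x) : EE n) + tr k = (s, r, x + lat k) := by
          simp [tr]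
        rw [this, hp]
      have h2 : ((s, r, x + lat k) : EE n) = (s, r, x) + tr k := by simp [tr]
      rw [h2, ← fderiv_comp_add_right, h1]
    obtain ⟨K, hK⟩ := bdd_of_periodic hfd hpd
    have hon : LipschitzOnWith K f (Icc (0 : ℝ) 1 ×ˢ (Icc (0 : ℝ) 1 ×ˢ (univ : Set (V n)))) := by
      refine Convex.lipschitzOnWith_of_nnnorm_fderiv_le (fun z _ => hd z) ?_
        ((convex_Icc 0 1).prod ((convex_Icc 0 1).prod convex_univ))
      rintro ⟨s, r, x⟩ ⟨hs, hr, -⟩
      exact hK s hs r hr x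
    refine ⟨K, ?_⟩
    have hθ : LipschitzWith 1 fun z : EE n => ((cl z.1, cl z.2.1, z.2.2) : EE n) := by
      have h1 : LipschitzWith 1 fun z : EE n => cl z.1 := by
        have := cl_lip.comp (LipschitzWith.prod_fst (α := ℝ) (β := ℝ × V n))
        rwa [mul_one] at this
      have h2 : LipschitzWith 1 fun z : EE n => cl z.2.1 := by
        have := cl_lip.comp ((LipschitzWith.prod_fst (α := ℝ) (β := V n)).comp
          (LipschitzWith.prod_snd (α := ℝ) (β := ℝ × V n)))
        rwa [mul_one, mul_one] at this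
      have h3 : LipschitzWith 1 fun z : EE n => z.2.2 := by
        have := (LipschitzWith.prod_snd (α := ℝ) (β := V n)).comp
          (LipschitzWith.prod_snd (α := ℝ) (β := ℝ × V n))
        rwa [mul_one] at this
      simpa using h1.prodMk (h2.prodMk h3)
    have h4 : LipschitzWith (K * 1) fun z : EE n => f (cl z.1, cl z.2.1, z.2.2) := by
      rw [← lipschitzOnWith_univ] at hθ ⊢
      exact hon.comp hθ fun z _ => ⟨cl_mem _, cl_mem _, mem_univ _⟩
    have h5 : (fun z : EE n => f (cl z.1, cl z.2.1, z.2.2)) = f := by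
      funext z
      obtain ⟨s, r, x⟩ := z
      exact (hcl s r x).symm
    rwa [h5, mul_one] at h4

end Pool.Agent.Helper597_mos
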