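import Pool.Agent.Helper597_mos.Field

/-!
# The infinitesimal identity in Moser's method
-/

set_option autoImplicit false
set_option linter.unusedSectionVars false

open Set Filter Topology
open scoped ContDiff NNReal

noncomputable section

namespace Pool.Agent.Helper597_mos

open Pool.Agent.Helper597_torsymp

variable {n : ℕ}

theorem hasDerivAt_om {f g : ℝ → V n} {f' g' : V n} {t : ℝ} (hf : HasDerivAt f f' t)
    (hg : HasDerivAt g g' t) :
    HasDerivAt (fun t => om (f t) (g t)) (om f' (g t) + om (f t) g') t := by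
  have hf' := fun i => (hasDerivAt_pi.1 hf) i
  have hg' := fun i => (hasDerivAt_pi.1 hg) i
  have h1 : HasDerivAt (fun t => om (f t) (g t))
      (∑ i, ((f' (Sum.inl i) * g t (Sum.inr i) + f t (Sum.inl i) * g' (Sum.inr i)) -
        (f' (Sum.inr i) * g t (Sum.inl i) + f t (Sum.inr i) * g' (Sum.inl i)))) t := by
    unfold om
    exact HasDerivAt.fun_sum fun i _ => ((hf' _).mul (hg' _)).sub ((hf' _).mul (hg' _))
  refine h1.congr_deriv ?_
  unfold om
  rw [← Finset.sum_add_distrib]
  exact Finset.sum_congr rfl fun i _ => by ring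

theorem hasDerivAt_line {F : Type} [NormedAddCommGroup F] [NormedSpace ℝ F] {f : V n → F}
    {x : V n} (hf : DifferentiableAt ℝ f x) (a : V n) :
    HasDerivAt (fun t : ℝ => f (x + t • a)) (fderiv ℝ f x a) 0 := by
  have h2 : HasDerivAt (fun t : ℝ => x + t • a) a 0 := by
    simpa using ((hasDerivAt_id (0 : ℝ)).smul_const a).const_add x
  have h1 : HasFDerivAt f (fderiv ℝ f x) (x + (0 : ℝ) • a) := by
    rw [zero_smul, add_zero]
    exact hf.hasFDerivAt
  exact h1.comp_hasDerivAt 0 h2

variable {A : Matrix (Fin n ⊕ Fin n) (Fin n ⊕ Fin n) ℤ} {Φ : ℝ × V n → V n}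

theorem dx_slice_contDiff (hΦ : ContDiff ℝ ∞ Φ) (s : ℝ) : ContDiff ℝ ∞ fun x => dx Φ (s, x) :=
  (dx_contDiff hΦ).comp (contDiff_const.prodMk contDiff_id)

theorem dx_symm (hΦ : ContDiff ℝ ∞ Φ) (s : ℝ) (x a b : V n) :
    fderiv ℝ (fun x => dx Φ (s, x)) x a b = fderiv ℝ (fun x => dx Φ (s, x)) x b a := by
  have hd : Differentiable ℝ Φ := hΦ.differentiable (by simp)
  have h1 : (fun x => dx Φ (s, x)) = fderiv ℝ fun x => Φ (s, x) :=
    funext fun x => (hasFDerivAt_slice hd s x).fderiv.symm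
  rw [h1]
  have h2 : ContDiff ℝ ∞ fun x => Φ (s, x) := hΦ.comp (contDiff_const.prodMk contDiff_id)
  have h3 : IsSymmSndFDerivAt ℝ (fun x => Φ (s, x)) x :=
    (h2.contDiffAt).isSymmSndFDerivAt (by
      simp only [minSmoothness_of_isRCLikeNormedField]
      exact WithTop.coe_le_coe.2 (le_top (a := (2 : ℕ∞))))
  exact h3 a b

/-- **The infinitesimal identity.** -/
theorem cartan (hΦ : ContDiff ℝ ∞ Φ) (hA : ∀ u v : V n, om (lin A u) (lin A v) = om u v)
    {s ρ : ℝ} (hnd : ∀ x, Nd Φ (s, ρ, x)) (x a b : V n) :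
    (om (dx Φ (s, x) a) (dx Φ (s, x) b) - om a b) +
      ρ * (om (fderiv ℝ (fun x => dx Φ (s, x)) x (Xf A Φ (s, ρ, x)) a) (dx Φ (s, x) b) +
        om (dx Φ (s, x) a) (fderiv ℝ (fun x => dx Φ (s, x)) x (Xf A Φ (s, ρ, x)) b)) +
      ((1 - ρ) * om (fderiv ℝ (fun x => Xf A Φ (s, ρ, x)) x a) b +
        ρ * om (dx Φ (s, x) (fderiv ℝ (fun x => Xf A Φ (s, ρ, x)) x a)) (dx Φ (s, x) b)) +
      ((1 - ρ) * om a (fderiv ℝ (fun x => Xf A Φ (s, ρ, x)) x b) +
        ρ * om (dx Φ (s, x) a) (dx Φ (s, x) (fderiv ℝ (fun x => Xf A Φ (s, ρ, x)) x b))) = 0 := by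
  have hd : Differentiable ℝ Φ := hΦ.differentiable (by simp)
  set D : V n → V n →L[ℝ] V n := fun x => dx Φ (s, x) with hD
  set X : V n → V n := fun x => Xf A Φ (s, ρ, x) with hX
  set h : V n → V n := fun x => Φ (s, x) - lin A x with hh
  have hDd : Differentiable ℝ D := (dx_slice_contDiff hΦ s).differentiable (by simp)
  have hXd : ∀ x, DifferentiableAt ℝ X x := fun x => by
    have h1 := (Xf_contDiffAt (A := A) hΦ (hnd x)).differentiableAt (by simp)
    have h2 : ContDiff ℝ ∞ (fun x : V n => ((s, ρ, x) : EE n)) :=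
      contDiff_const.prodMk (contDiff_const.prodMk contDiff_id)
    exact DifferentiableAt.comp (g := Xf A Φ) (f := fun x : V n => ((s, ρ, x) : EE n)) x h1
      (h2.differentiable (by simp) x)
  have hhd : ∀ x, HasFDerivAt h (D x - lin A) x := fun x =>
    (hasFDerivAt_slice hd s x).sub (lin A).hasFDerivAt
  -- the defining equation
  have key : ∀ x v, (1 - ρ) * om (X x) v + ρ * om (D x (X x)) (D x v) +
      (om (h x) (lin A v) + 1 / 2 * om (h x) (D x v - lin A v)) = 0 := by
    intro x v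
    have h1 := congrArg (fun w => om w v) (Wf_Xf (A := A) (hnd x))
    simp only at h1
    rw [om_Wf] at h1
    have h2 : om (-lf A Φ (s, x)) v = -om (lf A Φ (s, x)) v := by
      have := om_smul_left (-1) (lf A Φ (s, x)) v
      simpa using this
    simp only at h1
    rw [h2, om_lf] at h1
    simp only at h1
    rw [h1]
    ring
  -- its derivative
  have dkey : ∀ a v, (1 - ρ) * om (fderiv ℝ X x a) v +
      ρ * (om (fderiv ℝ D x a (X x) + D x (fderiv ℝ X x a)) (D x v) +
        om (D x (X x)) (fderiv ℝ D x a v)) +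
      (om (D x a - lin A a) (lin A v) + 1 / 2 * (om (D x a - lin A a) (D x v - lin A v) +
        om (h x) (fderiv ℝ D x a v))) = 0 := by
    intro a v
    have e1 := hasDerivAt_line (hXd x) a
    have e2 := hasDerivAt_line (hDd x) a
    have e3 := hasDerivAt_line (hhd x).differentiableAt a
    rw [(hhd x).fderiv] at e3
    have e4 : HasDerivAt (fun t : ℝ => D (x + t • a) (X (x + t • a)))
        (fderiv ℝ D x a (X x) + D x (fderiv ℝ X x a)) 0 := by
      have := e2.clm_apply e1
      simpa using this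
    have e5 : HasDerivAt (fun t : ℝ => D (x + t • a) v) (fderiv ℝ D x a v) 0 := by
      have := e2.clm_apply (hasDerivAt_const (0 : ℝ) v)
      simpa using this
    have e6 : HasDerivAt (fun t : ℝ => D (x + t • a) v - lin A v) (fderiv ℝ D x a v) 0 :=
      e5.sub_const _
    have f1 := (hasDerivAt_om e1 (hasDerivAt_const (0 : ℝ) v)).const_mul (1 - ρ)
    have f2 := (hasDerivAt_om e4 e5).const_mul ρ
    have f3 := hasDerivAt_om e3 (hasDerivAt_const (0 : ℝ) (lin A v))
    have f4 := (hasDerivAt_om e3 e6).const_mul (1 / 2 : ℝ)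
    have f5 := (f1.add f2).add (f3.add f4)
    have f6 : (fun t : ℝ => (1 - ρ) * om (X (x + t • a)) v + ρ * om (D (x + t • a)
        (X (x + t • a))) (D (x + t • a) v) + (om (h (x + t • a)) (lin A v) +
          1 / 2 * om (h (x + t • a)) (D (x + t • a) v - lin A v))) = fun _ => 0 :=
      funext fun t => key (x + t • a) v
    have f7 := f5.unique ((hasDerivAt_const (0 : ℝ) (0 : ℝ)).congr_of_eventuallyEq
      (Eventually.of_forall fun t => congrFun f6 t))
    simp only [zero_smul, add_zero, om_zero_right, _root_.sub_apply] at f7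
    linarith
  have g1 := dkey a b
  have g2 := dkey b a
  have s1 : fderiv ℝ D x a b = fderiv ℝ D x b a := dx_symm hΦ s x a b
  have s2 : fderiv ℝ D x a (X x) = fderiv ℝ D x (X x) a := dx_symm hΦ s x a (X x)
  have s3 : fderiv ℝ D x b (X x) = fderiv ℝ D x (X x) b := dx_symm hΦ s x b (X x)
  rw [s2, s1] at g1
  rw [s3] at g2
  have hAab := hA a b
  have t1 : om (lin A b) (lin A a) = -om a b := by rw [om_swap, hAab]
  have t2 := om_swap (fderiv ℝ X x b) a
  have t3 := om_swap (D x b) (D x a)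
  have t4 := om_swap (D x b) (lin A a)
  have t5 := om_swap (lin A b) (D x a)
  have t6 := om_swap (D x (fderiv ℝ X x b)) (D x a)
  have t7 := om_swap (fderiv ℝ D x (X x) b) (D x a)
  simp only [om_add_left, om_sub_left, om_sub_right] at g1 g2 ⊢
  rw [t2, t6, t7, t3, t4, t1, t5] at g2
  rw [hAab] at g1
  linarith

end Pool.Agent.Helper597_mos
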