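import Pool.Agent.Helper597_mos.Cube

/-!
# A criterion in terms of the means of the derivative
-/

set_option autoImplicit false
set_option linter.unusedSectionVars false

open Set Filter Topology MeasureTheory
open scoped ContDiff NNReal

noncomputable section

namespace Pool.Agent.Helper597_mos

open Pool.Agent.Helper597_torsymp

variable {n : ℕ} {A : Matrix (Fin n ⊕ Fin n) (Fin n ⊕ Fin n) ℤ}

theorem bv_eq_lat (α : Fin n ⊕ Fin n) : (bv α : V n) = lat (Pi.single α 1) := by
  funext i
  by_cases hi : i = α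
  · subst hi
    simp [bv, lat]
  · simp [bv, lat, hi]

/-- the mean of the derivative over the period is the linear part -/
theorem mean_period {F : V n → V n} (hF : ContDiff ℝ ∞ F)
    (he : ∀ (x : V n) (k : Fin n ⊕ Fin n → ℤ), F (x + lat k) = F x + lat (A.mulVec k))
    {B : Matrix (Fin n ⊕ Fin n) (Fin n ⊕ Fin n) ℤ} (hB : B.det ≠ 0) (x : V n) :
    mean F (lin B) x = lin A := by
  have h1 : ∀ α, mean F (lin B) x (lin B (bv α)) = lin A (lin B (bv α)) := by
    intro α
    rw [mean_apply_image hF, bv_eq_lat, lin_lat, lin_lat]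
    simp only [he, add_sub_cancel_left]
    simp
  have h2 : (mean F (lin B) x).comp (lin B) = (lin A).comp (lin B) := by
    have e : ((mean F (lin B) x).comp (lin B) : V n →ₗ[ℝ] V n) =
        ((lin A).comp (lin B) : V n →ₗ[ℝ] V n) := by
      refine (Pi.basisFun ℝ (Fin n ⊕ Fin n)).ext fun α => ?_
      rw [Pi.basisFun_apply]
      exact h1 α
    ext1 v
    exact LinearMap.congr_fun e v
  ext1 v
  have hdet : (B.map (Int.cast : ℤ → ℝ)).det ≠ 0 := by
    have : (B.map (Int.cast : ℤ → ℝ)).det = (B.det : ℝ) :=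
      ((Int.castRingHom ℝ).map_det B).symm
    rw [this]
    exact_mod_cast hB
  obtain ⟨w, hw⟩ : ∃ w, lin B w = v := by
    refine ⟨((B.map (Int.cast : ℤ → ℝ))⁻¹).mulVec v, ?_⟩
    rw [lin_apply, Matrix.mulVec_mulVec,
      Matrix.mul_nonsing_inv _ (isUnit_iff_ne_zero.2 hdet), Matrix.one_mulVec]
  rw [← hw]
  exact congrArg (fun L => L w) h2

/-- the final mean of a symplectomorphism is affine -/
theorem avg_period {F : V n → V n} (hF : ContDiff ℝ ∞ F)
    (he : ∀ (x : V n) (k : Fin n ⊕ Fin n → ℤ), F (x + lat k) = F x + lat (A.mulVec k))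
    {T : ℝ → V n →L[ℝ] V n} {B : Matrix (Fin n ⊕ Fin n) (Fin n ⊕ Fin n) ℤ} (hB : B.det ≠ 0)
    (h1 : T 1 = lin B) (x : V n) : avg F T (1, x) = lin A x + avg F T (1, 0) := by
  have h2 : ∀ x, HasFDerivAt (fun x => avg F T (1, x) - lin A x) (0 : V n →L[ℝ] V n) x := by
    intro x
    have h3 := (avg_hasFDerivAt (T := T) hF 1 x).sub (lin A).hasFDerivAt
    rw [h1, mean_period hF he hB, sub_self] at h3
    exact h3
  have h3 := is_const_of_fderiv_eq_zero (𝕜 := ℝ) (fun x => (h2 x).differentiableAt)
    (fun x => (h2 x).fderiv) x 0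
  simp only [map_zero, sub_zero] at h3
  rw [← h3]
  abel

theorem isTorusSymp_lin_add (hA : ∀ u v : V n, om (lin A u) (lin A v) = om u v) (c : V n) :
    IsTorusSymp A fun x => lin A x + c := by
  have h1 := (isTorusSymp_translation c).comp (isTorusSymp_lin (mem_of_om_lin hA))
  rwa [one_mul] at h1

theorem isotopic_lin_add (hA : ∀ u v : V n, om (lin A u) (lin A v) = om u v) (c : V n) :
    SymplecticallyIsotopic A (fun x => lin A x) (fun x => lin A x + c) := by
  refine ⟨fun t x => lin A x + t • c, ?_, ?_, ?_, fun t _ => isTorusSymp_lin_add hA _⟩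
  · exact ((lin A).contDiff.comp contDiff_snd).add (contDiff_fst.smul contDiff_const)
  · funext x
    simp
  · funext x
    simp

/-- **A criterion in terms of the means of the derivative.** -/
theorem isotopic_of_means {F : V n → V n} (hF : IsTorusSymp A F) {T : ℝ → V n →L[ℝ] V n}
    (hT : ContDiff ℝ ∞ T) (h0 : T 0 = 0)
    {B : Matrix (Fin n ⊕ Fin n) (Fin n ⊕ Fin n) ℤ} (hB : B.det ≠ 0) (h1 : T 1 = lin B)
    (hgood : ∀ s ∈ Icc (0 : ℝ) 1, ∀ ρ ∈ Icc (0 : ℝ) 1, ∀ x u,
      (∀ v, (1 - ρ) * om u v + ρ * om (mean F (T s) x u) (mean F (T s) x v) = 0) → u = 0) :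
    SymplecticallyIsotopic A (fun x => lin A x) F := by
  have hΦ := avg_contDiff (T := T) hF.smooth hT
  have e0 : (fun x => avg F T (0, x)) = F := funext fun x => avg_zero h0 x
  have e1 : (fun x => avg F T (1, x)) = fun x => lin A x + avg F T (1, 0) :=
    funext fun x => avg_period hF.smooth hF.equivariant hB h1 x
  have h2 : SymplecticallyIsotopic A (fun x => avg F T (0, x)) (fun x => avg F T (1, x)) := by
    refine isotopic_of_nondegenerate hΦ (avg_add hF.smooth hF.equivariant) ?_ ?_ ?_
    · intro s hs ρ hρ x u hu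
      refine hgood s hs ρ hρ x u fun v => ?_
      have h3 := hu v
      simp only [dx_avg hF.smooth hT] at h3
      exact h3
    · rw [e0]
      exact hF
    · rw [e1]
      exact isTorusSymp_lin_add hF.om_lin _
  rw [e0, e1] at h2
  exact (isotopic_lin_add hF.om_lin _).trans h2.symm

end Pool.Agent.Helper597_mos
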