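import Pool.Agent.Helper597_mos.Avg

/-!
# Integrals over the unit cube
-/

set_option autoImplicit false
set_option linter.unusedSectionVars false

open Set Filter Topology MeasureTheory
open scoped ContDiff NNReal

noncomputable section

namespace Pool.Agent.Helper597_mos

open Pool.Agent.Helper597_torsymp

variable {n : ℕ}

theorem restrict_cube : volume.restrict (Icc (0 : V n) 1) =
    Measure.pi (fun _ : Fin n ⊕ Fin n => volume.restrict (Icc (0 : ℝ) 1)) := by
  have h := Measure.restrict_pi_pi (fun _ : Fin n ⊕ Fin n => (volume : Measure ℝ))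
    (fun _ => Icc (0 : ℝ) 1)
  rw [← h]
  congr 1
  exact (pi_univ_Icc (0 : V n) 1).symm

instance : IsProbabilityMeasure (volume.restrict (Icc (0 : ℝ) 1)) :=
  ⟨by rw [Measure.restrict_apply_univ, Real.volume_Icc]; simp⟩

theorem measurePreserving_refresh (α : Fin n ⊕ Fin n) :
    MeasurePreserving (fun p : V n × ℝ => Function.update p.1 α p.2)
      ((volume.restrict (Icc (0 : V n) 1)).prod (volume.restrict (Icc (0 : ℝ) 1)))
      (volume.restrict (Icc (0 : V n) 1)) := by
  have hm : Measurable (fun p : V n × ℝ => Function.update p.1 α p.2) := by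
    have : Continuous (fun p : V n × ℝ => Function.update p.1 α p.2) :=
      continuous_fst.update α continuous_snd
    exact this.measurable
  refine ⟨hm, ?_⟩
  rw [restrict_cube]
  symm
  refine Measure.pi_eq fun s hs => ?_
  rw [Measure.map_apply hm (MeasurableSet.univ_pi hs)]
  have h1 : (fun p : V n × ℝ => Function.update p.1 α p.2) ⁻¹' (Set.pi univ s) =
      (Set.pi univ (Function.update s α univ)) ×ˢ (s α) := by
    ext p
    obtain ⟨y, t⟩ := p
    simp only [mem_preimage, Set.mem_pi, mem_univ, true_implies, mem_prod]
    constructor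
    · intro h
      refine ⟨fun i => ?_, ?_⟩
      · by_cases hi : i = α
        · subst hi
          simp
        · have := h i
          rw [Function.update_of_ne hi] at this ⊢
          exact this
      · have := h α
        rwa [Function.update_self] at this
    · rintro ⟨h1, h2⟩ i
      by_cases hi : i = α
      · subst hi
        rwa [Function.update_self]
      · have := h1 i
        rw [Function.update_of_ne hi] at this ⊢
        exact this
  rw [h1, Measure.prod_prod, Measure.pi_pi, ← Finset.mul_prod_erase _ _ (Finset.mem_univ α),
    ← Finset.mul_prod_erase Finset.univ (fun i => (volume.restrict (Icc (0 : ℝ) 1)) (s i))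
      (Finset.mem_univ α), Function.update_self, measure_univ, one_mul, mul_comm]
  congr 1
  refine Finset.prod_congr rfl fun i hi => ?_
  rw [Function.update_of_ne (Finset.ne_of_mem_erase hi)]

/-- one coordinate can be averaged separately -/
theorem integral_refresh {W : Type} [NormedAddCommGroup W] [NormedSpace ℝ W]
    {f : V n → W} (hf : Continuous f) (α : Fin n ⊕ Fin n) :
    ∫ y in Icc (0 : V n) 1, f y =
      ∫ y in Icc (0 : V n) 1, ∫ t in Icc (0 : ℝ) 1, f (Function.update y α t) := by
  have hmp := measurePreserving_refresh α
  have hc : Continuous (fun p : V n × ℝ => f (Function.update p.1 α p.2)) :=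
    hf.comp (continuous_fst.update α continuous_snd)
  have h1 : ∫ y in Icc (0 : V n) 1, f y = ∫ p, f (Function.update p.1 α p.2)
      ∂((volume.restrict (Icc (0 : V n) 1)).prod (volume.restrict (Icc (0 : ℝ) 1))) := by
    conv_lhs => rw [← hmp.map_eq]
    exact integral_map hmp.measurable.aemeasurable (by
      rw [hmp.map_eq]
      exact (integrable_cube hf).aestronglyMeasurable)
  rw [h1, integral_prod]
  rw [Measure.prod_restrict]
  exact hc.continuousOn.integrableOn_compact (isCompact_Icc.prod isCompact_Icc)

/-- the fundamental theorem of calculus on the cube -/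
theorem integral_fderiv_cube {W : Type} [NormedAddCommGroup W] [NormedSpace ℝ W] [CompleteSpace W]
    {G : V n → W} (hG : ContDiff ℝ 1 G) (α : Fin n ⊕ Fin n) :
    ∫ y in Icc (0 : V n) 1, fderiv ℝ G y (bv α) =
      ∫ y in Icc (0 : V n) 1, (G (Function.update y α 1) - G (Function.update y α 0)) := by
  have hc : Continuous fun y => fderiv ℝ G y (bv α) :=
    (hG.continuous_fderiv one_ne_zero).clm_apply continuous_const
  rw [integral_refresh hc α]
  congr 1
  funext y
  have h1 : ∀ t : ℝ, HasDerivAt (fun t => G (Function.update y α t))
      (fderiv ℝ G (Function.update y α t) (bv α)) t := by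
    intro t
    have h2 : HasDerivAt (fun t => Function.update y α t) (Pi.single α (1 : ℝ)) t :=
      hasDerivAt_update y α t
    exact (hG.differentiable one_ne_zero _).hasFDerivAt.comp_hasDerivAt t h2
  rw [integral_Icc_eq_integral_Ioc, ← intervalIntegral.integral_of_le zero_le_one]
  refine intervalIntegral.integral_eq_sub_of_hasDerivAt (fun t _ => h1 t) ?_
  exact (hc.comp (continuous_const.update α continuous_id)).intervalIntegrable _ _

theorem update_one (y : V n) (α : Fin n ⊕ Fin n) :
    Function.update y α 1 = Function.update y α 0 + bv α := by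
  funext i
  by_cases hi : i = α
  · subst hi
    simp [bv]
  · simp [bv, hi]

theorem mean_apply {F : V n → V n} (hF : ContDiff ℝ ∞ F) (T : V n →L[ℝ] V n) (x u : V n) :
    mean F T x u = ∫ y in Icc (0 : V n) 1, fderiv ℝ F (x + T y) u := by
  unfold mean
  refine ContinuousLinearMap.integral_apply (integrable_cube ?_) u
  exact (hF.continuous_fderiv (by simp)).comp (continuous_const.add T.continuous)

/-- the mean of the derivative in terms of differences -/
theorem mean_apply_image {F : V n → V n} (hF : ContDiff ℝ ∞ F) (T : V n →L[ℝ] V n) (x : V n)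
    (α : Fin n ⊕ Fin n) :
    mean F T x (T (bv α)) = ∫ y in Icc (0 : V n) 1,
      (F (x + T (Function.update y α 0) + T (bv α)) - F (x + T (Function.update y α 0))) := by
  rw [mean_apply hF]
  have hG : ContDiff ℝ 1 fun y => F (x + T y) :=
    (hF.of_le (by simp)).comp (contDiff_const.add T.contDiff)
  have h1 := integral_fderiv_cube hG α
  have h2 : ∀ y, fderiv ℝ (fun y => F (x + T y)) y (bv α) = fderiv ℝ F (x + T y) (T (bv α)) := by
    intro y
    have h3 : HasFDerivAt (fun y => F (x + T y)) ((fderiv ℝ F (x + T y)).comp T) y :=
      (hF.differentiable (by simp) _).hasFDerivAt.comp y (T.hasFDerivAt.const_add x)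
    rw [h3.fderiv]
    rfl
  simp only [h2, update_one, map_add, ← add_assoc] at h1
  exact h1

end Pool.Agent.Helper597_mos
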