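import Pool.Agent.Helper597_mos.Bdd
import Pool.Agent.Helper597_torsymp.Dec

/-!
# The Moser vector field of a family of maps of the torus
-/

set_option autoImplicit false
set_option linter.unusedSectionVars false

open Set Filter Topology
open scoped ContDiff NNReal

noncomputable section

namespace Pool.Agent.Helper597_mos

open Pool.Agent.Helper597_torsymp

variable {n : ℕ}

/-! ### Adjoints with respect to the symplectic form -/

/-- the vector which represents a linear form -/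
def sharp (φ : V n → ℝ) : V n :=
  Sum.elim (fun i => φ (bv (Sum.inr i))) (fun i => -φ (bv (Sum.inl i)))

theorem om_sharp {φ : V n → ℝ} (hadd : ∀ u v, φ (u + v) = φ u + φ v)
    (hsmul : ∀ (c : ℝ) v, φ (c • v) = c * φ v) (v : V n) : om (sharp φ) v = φ v := by
  have h0 : φ 0 = 0 := by
    have := hsmul 0 0
    rwa [zero_smul, zero_mul] at this
  have hsum : ∀ s : Finset (Fin n ⊕ Fin n), φ (∑ α ∈ s, v α • bv α) = ∑ α ∈ s, v α * φ (bv α) := by
    intro s
    induction s using Finset.induction_on with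
    | empty => simpa using h0
    | insert b s hb ih => rw [Finset.sum_insert hb, Finset.sum_insert hb, hadd, hsmul, ih]
  conv_rhs => rw [vec_eq_sum v, hsum, Fintype.sum_sum_type, ← Finset.sum_add_distrib]
  unfold om sharp
  refine Finset.sum_congr rfl fun i _ => ?_
  simp only [Sum.elim_inl, Sum.elim_inr]
  ring

theorem sharp_add (φ ψ : V n → ℝ) : sharp (fun v => φ v + ψ v) = sharp φ + sharp ψ := by
  funext α
  rcases α with i | i <;> simp [sharp]
  ring

theorem sharp_smul (c : ℝ) (φ : V n → ℝ) : sharp (fun v => c * φ v) = c • sharp φ := by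
  funext α
  rcases α with i | i <;> simp [sharp]

/-- the adjoint of a linear map -/
def adj (L : V n →L[ℝ] V n) : V n →L[ℝ] V n := LinearMap.toContinuousLinearMap
  { toFun := fun a => sharp fun v => om a (L v)
    map_add' := fun a b => by
      rw [← sharp_add]
      congr 1
      funext v
      rw [om_add_left]
    map_smul' := fun c a => by
      rw [RingHom.id_apply, ← sharp_smul]
      congr 1
      funext v
      rw [om_smul_left] }

theorem adj_apply (L : V n →L[ℝ] V n) (a : V n) : adj L a = sharp fun v => om a (L v) := rfl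

theorem om_adj (L : V n →L[ℝ] V n) (a v : V n) : om (adj L a) v = om a (L v) := by
  rw [adj_apply]
  exact om_sharp (fun u v => by rw [map_add, om_add_right])
    (fun c v => by rw [map_smul, om_smul_right]) v

theorem eq_of_om {a b : V n} (h : ∀ v, om a v = om b v) : a = b := by
  rw [← sub_eq_zero]
  exact om_nondeg _ fun v => by rw [om_sub_left, h, sub_self]

/-- the adjoint as a linear map -/
def adjLin : (V n →L[ℝ] V n) →ₗ[ℝ] (V n →L[ℝ] V n) where
  toFun := adj
  map_add' := fun L M => by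
    refine ContinuousLinearMap.ext fun a => eq_of_om fun v => ?_
    rw [_root_.add_apply, om_add_left, om_adj, om_adj, om_adj, _root_.add_apply, om_add_right]
  map_smul' := fun c L => by
    refine ContinuousLinearMap.ext fun a => eq_of_om fun v => ?_
    rw [RingHom.id_apply, _root_.smul_apply, om_smul_left, om_adj, om_adj, _root_.smul_apply,
      om_smul_right]

theorem adj_contDiff {E : Type} [NormedAddCommGroup E] [NormedSpace ℝ E]
    {D : E → V n →L[ℝ] V n} (hD : ContDiff ℝ ∞ D) : ContDiff ℝ ∞ fun z => adj (D z) :=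
  (LinearMap.toContinuousLinearMap (adjLin (n := n))).contDiff.comp hD

/-! ### The vector field -/

section family

variable (A : Matrix (Fin n ⊕ Fin n) (Fin n ⊕ Fin n) ℤ) (Φ : ℝ × V n → V n)

/-- the derivative in the space variables -/
def dx (p : ℝ × V n) : V n →L[ℝ] V n := (fderiv ℝ Φ p).comp (ContinuousLinearMap.inr ℝ ℝ (V n))

/-- the endomorphism which represents the interpolated form -/
def Wf (z : EE n) : V n →L[ℝ] V n :=
  (1 - z.2.1) • ContinuousLinearMap.id ℝ (V n) +
    z.2.1 • (adj (dx Φ (z.1, z.2.2))).comp (dx Φ (z.1, z.2.2))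

/-- the primitive of the difference of the forms -/
def lf (p : ℝ × V n) : V n :=
  adj (lin A) (Φ p - lin A p.2) + (1 / 2 : ℝ) • adj (dx Φ p - lin A) (Φ p - lin A p.2)

/-- the vector field -/
def Xf (z : EE n) : V n := -(ContinuousLinearMap.inverse (Wf Φ z)) (lf A Φ (z.1, z.2.2))

variable {A Φ}

theorem om_Wf (z : EE n) (u v : V n) : om (Wf Φ z u) v =
    (1 - z.2.1) * om u v + z.2.1 * om (dx Φ (z.1, z.2.2) u) (dx Φ (z.1, z.2.2) v) := by
  unfold Wf
  rw [_root_.add_apply, _root_.smul_apply, _root_.smul_apply, om_add_left, om_smul_left,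
    om_smul_left, ContinuousLinearMap.comp_apply, om_adj]
  rfl

theorem om_lf (p : ℝ × V n) (v : V n) : om (lf A Φ p) v = om (Φ p - lin A p.2) (lin A v) +
    1 / 2 * om (Φ p - lin A p.2) (dx Φ p v - lin A v) := by
  unfold lf
  rw [om_add_left, om_smul_left, om_adj, om_adj, _root_.sub_apply]

/-- the form is nondegenerate -/
def Nd (Φ : ℝ × V n → V n) (z : EE n) : Prop :=
  ∀ u, (∀ v, (1 - z.2.1) * om u v + z.2.1 * om (dx Φ (z.1, z.2.2) u) (dx Φ (z.1, z.2.2) v) = 0) →
    u = 0

theorem exists_equiv_of_nd {z : EE n} (h : Nd Φ z) :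
    ∃ e : V n ≃L[ℝ] V n, (e : V n →L[ℝ] V n) = Wf Φ z := by
  have hinj : Function.Injective ((Wf Φ z : V n →L[ℝ] V n) : V n →ₗ[ℝ] V n) := by
    rw [injective_iff_map_eq_zero]
    intro u hu
    refine h u fun v => ?_
    have h1 : Wf Φ z u = 0 := hu
    rw [← om_Wf, h1, om_zero_left]
  exact ⟨(LinearEquiv.ofInjectiveEndo _ hinj).toContinuousLinearEquiv, by
    ext u v
    rfl⟩

theorem Wf_Xf {z : EE n} (h : Nd Φ z) : Wf Φ z (Xf A Φ z) = -lf A Φ (z.1, z.2.2) := by
  obtain ⟨e, he⟩ := exists_equiv_of_nd h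
  unfold Xf
  rw [← he, ContinuousLinearMap.inverse_equiv, map_neg]
  congr 1
  exact e.apply_symm_apply _

theorem dx_contDiff (hΦ : ContDiff ℝ ∞ Φ) : ContDiff ℝ ∞ (dx Φ) :=
  (hΦ.fderiv_right (m := ∞) (by norm_cast)).clm_comp contDiff_const

theorem Wf_contDiff (hΦ : ContDiff ℝ ∞ Φ) : ContDiff ℝ ∞ (Wf Φ) := by
  have h1 : ContDiff ℝ ∞ fun z : EE n => z.2.1 := contDiff_fst.comp contDiff_snd
  have h2 : ContDiff ℝ ∞ fun z : EE n => (z.1, z.2.2) :=
    contDiff_fst.prodMk (contDiff_snd.comp contDiff_snd)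
  have h3 : ContDiff ℝ ∞ fun z : EE n => dx Φ (z.1, z.2.2) := (dx_contDiff hΦ).comp h2
  exact ((contDiff_const.sub h1).smul contDiff_const).add
    (h1.smul ((adj_contDiff h3).clm_comp h3))

theorem lf_contDiff (hΦ : ContDiff ℝ ∞ Φ) : ContDiff ℝ ∞ (lf A Φ) := by
  have h1 : ContDiff ℝ ∞ fun p : ℝ × V n => Φ p - lin A p.2 :=
    hΦ.sub ((lin A).contDiff.comp contDiff_snd)
  have h2 : ContDiff ℝ ∞ fun p : ℝ × V n => adj (dx Φ p - lin A) :=
    adj_contDiff ((dx_contDiff hΦ).sub contDiff_const)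
  exact ((adj (lin A)).contDiff.comp h1).add ((h2.clm_apply h1).const_smul (1 / 2 : ℝ))

theorem Xf_contDiffAt (hΦ : ContDiff ℝ ∞ Φ) {z : EE n} (h : Nd Φ z) :
    ContDiffAt ℝ ∞ (Xf A Φ) z := by
  obtain ⟨e, he⟩ := exists_equiv_of_nd h
  have h1 : ContDiffAt ℝ ∞ ContinuousLinearMap.inverse (Wf Φ z) := by
    rw [← he]
    exact contDiffAt_map_inverse e
  have h2 : ContDiffAt ℝ ∞ (fun z => ContinuousLinearMap.inverse (Wf Φ z)) z :=
    h1.comp z (Wf_contDiff hΦ).contDiffAt
  have h3 : ContDiff ℝ ∞ fun z : EE n => (z.1, z.2.2) :=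
    contDiff_fst.prodMk (contDiff_snd.comp contDiff_snd)
  exact (h2.clm_apply ((lf_contDiff hΦ).comp h3).contDiffAt).neg

/-- derivative of a slice -/
theorem hasFDerivAt_slice (hΦ : Differentiable ℝ Φ) (s : ℝ) (x : V n) :
    HasFDerivAt (fun x => Φ (s, x)) (dx Φ (s, x)) x :=
  (hΦ (s, x)).hasFDerivAt.comp x (hasFDerivAt_prodMk_right s x)

theorem dx_periodic (he : ∀ s x (k : Fin n ⊕ Fin n → ℤ), Φ (s, x + lat k) =
    Φ (s, x) + lat (A.mulVec k)) (s : ℝ) (x : V n) (k : Fin n ⊕ Fin n → ℤ) :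
    dx Φ (s, x + lat k) = dx Φ (s, x) := by
  have h1 : (fun p : ℝ × V n => Φ (p + (0, lat k))) = fun p => Φ p + lat (A.mulVec k) := by
    funext p
    obtain ⟨s, x⟩ := p
    have : ((s, x) : ℝ × V n) + (0, lat k) = (s, x + lat k) := by simp
    rw [this, he]
  have h2 : ((s, x + lat k) : ℝ × V n) = (s, x) + (0, lat k) := by simp
  unfold dx
  rw [h2, ← fderiv_comp_add_right, h1, fderiv_add_const]

theorem Wf_periodic (he : ∀ s x (k : Fin n ⊕ Fin n → ℤ), Φ (s, x + lat k) =
    Φ (s, x) + lat (A.mulVec k)) (s r : ℝ) (x : V n) (k : Fin n ⊕ Fin n → ℤ) :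
    Wf Φ (s, r, x + lat k) = Wf Φ (s, r, x) := by
  unfold Wf
  simp only
  rw [dx_periodic he]

theorem lf_periodic (he : ∀ s x (k : Fin n ⊕ Fin n → ℤ), Φ (s, x + lat k) =
    Φ (s, x) + lat (A.mulVec k)) (s : ℝ) (x : V n) (k : Fin n ⊕ Fin n → ℤ) :
    lf A Φ (s, x + lat k) = lf A Φ (s, x) := by
  unfold lf
  simp only
  rw [dx_periodic he, he, map_add, lin_lat, add_sub_add_right_eq_sub]

theorem Xf_periodic (he : ∀ s x (k : Fin n ⊕ Fin n → ℤ), Φ (s, x + lat k) =
    Φ (s, x) + lat (A.mulVec k)) (s r : ℝ) (x : V n) (k : Fin n ⊕ Fin n → ℤ) :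
    Xf A Φ (s, r, x + lat k) = Xf A Φ (s, r, x) := by
  unfold Xf
  rw [Wf_periodic he]
  simp only
  rw [lf_periodic he]

end family

end Pool.Agent.Helper597_mos
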