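import Pool.Agent.GR.Flow

/-!
# Smooth flows of bounded Lipschitz vector fields
-/

set_option autoImplicit false

open Set Filter Topology
open scoped ContDiff NNReal

noncomputable section

namespace Pool.Agent.Helper597_mos

open Pool.Agent.GR.Flow

variable {E : Type} [NormedAddCommGroup E] [NormedSpace ℝ E]

theorem exists_smooth_flow [CompleteSpace E] {Y : E → E} (hY : ContDiff ℝ ∞ Y) {K M : ℝ≥0}
    (hK : LipschitzWith K Y) (hM : ∀ x, ‖Y x‖ ≤ M) :
    ∃ g : ℝ → E → E, IsFlowOf Y g ∧ ContDiff ℝ ∞ fun p : ℝ × E => g p.1 p.2 := by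
  choose γ h0 h1 using exists_solution hK hM
  have hg : IsFlowOf Y fun t x => γ x t := ⟨h0, h1⟩
  refine ⟨fun t x => γ x t, hg, ?_⟩
  rw [contDiff_infty]
  intro m
  rcases Nat.eq_zero_or_pos m with rfl | hm
  · have h2 := contDiff_flow (X := ⟨Y, hY.continuous⟩) (m := 1) one_ne_zero
      ((contDiff_infty.1 hY) 1) hK hg
    exact h2.of_le (by norm_num)
  · exact contDiff_flow (X := ⟨Y, hY.continuous⟩) hm.ne' ((contDiff_infty.1 hY) m) hK hg

/-- the variational equation -/
theorem hasDerivAt_variation [CompleteSpace E] {Y : E → E} (hY : ContDiff ℝ ∞ Y) {K : ℝ≥0}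
    (hK : LipschitzWith K Y) {g : ℝ → E → E} (hg : IsFlowOf Y g)
    (hgs : ContDiff ℝ ∞ fun p : ℝ × E => g p.1 p.2) (z w : E) (t : ℝ) :
    HasDerivAt (fun t => fderiv ℝ (g t) z w) (fderiv ℝ Y (g t z) (fderiv ℝ (g t) z w)) t := by
  have hd : ∀ t, Differentiable ℝ (g t) := fun t =>
    (hgs.comp (contDiff_const.prodMk contDiff_id)).differentiable (by simp)
  have h1 : HasDerivAt (fun τ => fderiv ℝ (g τ) (g t z) (fderiv ℝ (g t) z w))
      (fderiv ℝ Y (g t z) (fderiv ℝ (g t) z w)) 0 :=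
    hasDerivAt_fderiv_flow (X := ⟨Y, hY.continuous⟩) (hY.of_le (by simp)) hK hg _ _
  have h2 : (fun r => fderiv ℝ (g r) z w) =
      fun r => fderiv ℝ (g (r - t)) (g t z) (fderiv ℝ (g t) z w) := by
    funext r
    have h3 : g r = fun y => g (r - t) (g t y) := by
      funext y
      rw [← hg.add hK, sub_add_cancel]
    have h4 : HasFDerivAt (fun y => g (r - t) (g t y))
        ((fderiv ℝ (g (r - t)) (g t z)).comp (fderiv ℝ (g t) z)) z :=
      (hd (r - t) (g t z)).hasFDerivAt.comp z (hd t z).hasFDerivAt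
    conv_lhs => rw [h3]
    rw [h4.fderiv]
    rfl
  rw [h2]
  have h5 : HasDerivAt (fun r : ℝ => r - t) 1 t := (hasDerivAt_id t).sub_const t
  have h6 : HasDerivAt (fun τ => fderiv ℝ (g τ) (g t z) (fderiv ℝ (g t) z w))
      (fderiv ℝ Y (g t z) (fderiv ℝ (g t) z w)) (t - t) := by rwa [sub_self]
  have h7 := HasDerivAt.scomp (h := fun r : ℝ => r - t) t h6 h5
  rwa [one_smul] at h7

/-- flows of periodic fields -/
theorem flow_add {Y : E → E} {K : ℝ≥0} (hK : LipschitzWith K Y) {g : ℝ → E → E}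
    (hg : IsFlowOf Y g) {k : E} (hk : ∀ z, Y (z + k) = Y z) (t : ℝ) (z : E) :
    g t (z + k) = g t z + k := by
  have h1 : (fun t => g t (z + k)) = fun t => g t z + k := by
    refine ODE_solution_unique_univ (v := fun _ => Y) (s := fun _ => univ) (K := K) (t₀ := 0)
      (fun t => hK.lipschitzOnWith) (fun t => ⟨hg.deriv _ t, trivial⟩)
      (fun t => ⟨?_, trivial⟩) ?_
    · have h2 := (hg.deriv z t).add_const k
      rw [← hk] at h2
      exact h2
    · rw [hg.zero, hg.zero]
  exact congrFun h1 t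

end Pool.Agent.Helper597_mos
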