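import Pool.Agent.Helper597_mos.Osc

/-!
# Lipschitz symplectomorphisms
-/

set_option autoImplicit false
set_option linter.unusedSectionVars false

open Set Filter Topology MeasureTheory
open scoped ContDiff NNReal

noncomputable section

namespace Pool.Agent.Helper597_mos

open Pool.Agent.Helper597_torsymp

variable {n : ℕ} {A : Matrix (Fin n ⊕ Fin n) (Fin n ⊕ Fin n) ℤ}

theorem ip_sq_le (u v : V n) : ip u v ^ 2 ≤ ip u u * ip v v := by
  have := bessel u v
  nlinarith [sq_nonneg (ip u (Jv v))]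

theorem om_sq_le (u v : V n) : om u v ^ 2 ≤ ip u u * ip v v := by
  have := bessel v u
  rw [om_eq_ip, ip_comm (Jv u) v]
  nlinarith [sq_nonneg (ip v u)]

/-- the derivative of a Lipschitz map -/
theorem deriv_of_lip {F : V n → V n} (hd : Differentiable ℝ F) {c : ℝ}
    (hL : ∀ x y, ip (F x - F y) (F x - F y) ≤ c * ip (x - y) (x - y)) (x u : V n) :
    ip (fderiv ℝ F x u) (fderiv ℝ F x u) ≤ c * ip u u := by
  have h1 := hasDerivAt_line (hd x) u
  have h2 := h1.tendsto_slope_zero
  simp only [zero_add, zero_smul, add_zero] at h2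
  have h3 : Tendsto (fun t : ℝ => ip (t⁻¹ • (F (x + t • u) - F x)) (t⁻¹ • (F (x + t • u) - F x)))
      (𝓝[≠] 0) (𝓝 (ip (fderiv ℝ F x u) (fderiv ℝ F x u))) := by
    have h4 : Continuous fun w : V n => ip w w := continuous_ip continuous_id continuous_id
    exact (h4.tendsto _).comp h2
  refine le_of_tendsto h3 ?_
  filter_upwards [self_mem_nhdsWithin] with t ht
  have ht' : t ≠ 0 := ht
  have h5 := hL (x + t • u) x
  rw [add_sub_cancel_left, ip_smul_left, ip_smul_right] at h5
  rw [ip_smul_left, ip_smul_right]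
  have h6 : t⁻¹ * (t⁻¹ * ip (F (x + t • u) - F x) (F (x + t • u) - F x)) ≤
      t⁻¹ * (t⁻¹ * (c * (t * (t * ip u u)))) := by
    have : 0 ≤ t⁻¹ * t⁻¹ := mul_self_nonneg _
    nlinarith [mul_le_mul_of_nonneg_left h5 this]
  refine h6.trans (le_of_eq ?_)
  field_simp

/-- the Lipschitz estimate from the derivative -/
theorem lip_of_deriv {G : V n → V n} (hd : Differentiable ℝ G) {c : ℝ}
    (hG : ∀ x u, ip (fderiv ℝ G x u) (fderiv ℝ G x u) ≤ c * ip u u) (x y : V n) :
    ip (G x - G y) (G x - G y) ≤ c * ip (x - y) (x - y) := by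
  set w := G x - G y with hw
  have h1 : ∀ t : ℝ, HasDerivAt (fun t : ℝ => ip (G (y + t • (x - y))) w)
      (ip (fderiv ℝ G (y + t • (x - y)) (x - y)) w) t := by
    intro t
    have e1 : HasDerivAt (fun t : ℝ => y + t • (x - y)) (x - y) t := by
      simpa using ((hasDerivAt_id t).smul_const (x - y)).const_add y
    have e2 := (hd (y + t • (x - y))).hasFDerivAt.comp_hasDerivAt t e1
    set L : V n →L[ℝ] ℝ := LinearMap.toContinuousLinearMap
      { toFun := fun u => ip u w
        map_add' := fun u v => ip_add_left u v w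
        map_smul' := fun c u => ip_smul_left c u w } with hL
    exact L.hasFDerivAt.comp_hasDerivAt t e2
  obtain ⟨t, -, ht⟩ := exists_hasDerivAt_eq_slope (fun t : ℝ => ip (G (y + t • (x - y))) w)
    (fun t => ip (fderiv ℝ G (y + t • (x - y)) (x - y)) w) zero_lt_one
    (fun t _ => (h1 t).continuousAt.continuousWithinAt) (fun t _ => h1 t)
  simp only [one_smul, zero_smul, add_zero, sub_zero, div_one, add_sub_cancel] at ht
  rw [← ip_sub_left, ← hw] at ht
  by_cases h0 : w = 0
  · rw [h0]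
    have h2 := (ip_self_nonneg (fderiv ℝ G x (x - y))).trans (hG x (x - y))
    have h3 : ip (0 : V n) 0 = 0 := by simp [ip]
    rw [h3]
    exact h2
  have hpos := ip_self_pos h0
  have h2 := ip_sq_le (fderiv ℝ G (y + t • (x - y)) (x - y)) w
  rw [ht] at h2
  have h3 := hG (y + t • (x - y)) (x - y)
  have h4 : ip w w * ip w w ≤ (c * ip (x - y) (x - y)) * ip w w := by
    rw [← sq]
    exact h2.trans (mul_le_mul_of_nonneg_right h3 hpos.le)
  exact le_of_mul_le_mul_right h4 hpos

/-- a symplectic Lipschitz map does not contract more than its inverse constant -/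
theorem deriv_lower {F : V n → V n}
    (hsy : ∀ x u v, om (fderiv ℝ F x u) (fderiv ℝ F x v) = om u v) {c : ℝ}
    (hD : ∀ x u, ip (fderiv ℝ F x u) (fderiv ℝ F x u) ≤ c * ip u u) (x u : V n) :
    ip u u ≤ c * ip (fderiv ℝ F x u) (fderiv ℝ F x u) := by
  by_cases hu : u = 0
  · subst hu
    simp [ip]
  have hpos := ip_self_pos hu
  have h1 := om_sq_le (fderiv ℝ F x u) (fderiv ℝ F x (Jv u))
  rw [hsy, om_Jv_right] at h1
  have h2 := hD x (Jv u)
  rw [ip_Jv_Jv] at h2
  have h3 := mul_le_mul_of_nonneg_left h2 (ip_self_nonneg (fderiv ℝ F x u))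
  have h4 : ip u u * ip u u ≤ (c * ip (fderiv ℝ F x u) (fderiv ℝ F x u)) * ip u u := by
    rw [← sq]
    refine h1.trans (h3.trans (le_of_eq ?_))
    ring
  exact le_of_mul_le_mul_right h4 hpos

/-- a symplectic Lipschitz map is bilipschitz -/
theorem lip_lower {F : V n → V n} (hF : Differentiable ℝ F)
    (hsy : ∀ x u v, om (fderiv ℝ F x u) (fderiv ℝ F x v) = om u v)
    (hinv : ∃ H : V n → V n, ContDiff ℝ ∞ H ∧ Function.LeftInverse H F ∧
      Function.RightInverse H F) {c : ℝ}
    (hL : ∀ x y, ip (F x - F y) (F x - F y) ≤ c * ip (x - y) (x - y)) (x y : V n) :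
    ip (x - y) (x - y) ≤ c * ip (F x - F y) (F x - F y) := by
  have hD := deriv_of_lip hF hL
  obtain ⟨H, hH, hl, hr⟩ := hinv
  have hHd : Differentiable ℝ H := hH.differentiable (by simp)
  have h1 : ∀ z w, ip (fderiv ℝ H z w) (fderiv ℝ H z w) ≤ c * ip w w := by
    intro z w
    have h2 : HasFDerivAt (fun z => F (H z)) ((fderiv ℝ F (H z)).comp (fderiv ℝ H z)) z :=
      (hF (H z)).hasFDerivAt.comp z (hHd z).hasFDerivAt
    have h3 : (fun z => F (H z)) = id := funext hr
    rw [h3] at h2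
    have h4 := h2.unique (hasFDerivAt_id z)
    have h5 : fderiv ℝ F (H z) (fderiv ℝ H z w) = w := congrArg (fun L => L w) h4
    have h6 := deriv_lower hsy hD (H z) (fderiv ℝ H z w)
    rwa [h5] at h6
  have h2 := lip_of_deriv hHd h1 (F x) (F y)
  rwa [hl, hl] at h2

/-- the four point inequality -/
theorem four_points {F : V n → V n} {c : ℝ} (hc : 0 < c)
    (hL : ∀ x y, ip (F x - F y) (F x - F y) ≤ c * ip (x - y) (x - y))
    (hl : ∀ x y, ip (x - y) (x - y) ≤ c * ip (F x - F y) (F x - F y)) (x x' v : V n) :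
    c⁻¹ * ip v v - (c - c⁻¹) * ip (x' - x) (x' - x) ≤
      ip (F (x + v) - F x) (F (x' + v) - F x') := by
  have e1 := hl (x + v) x'
  have e2 := hl x (x' + v)
  have e3 := hL x x'
  have e4 := hL (x + v) (x' + v)
  have d1 : x + v - x' = v - (x' - x) := by abel
  have d2 : x - (x' + v) = -(v + (x' - x)) := by abel
  have d3 : x - x' = -(x' - x) := by abel
  have d4 : x + v - (x' + v) = -(x' - x) := by abel
  have hneg : ∀ u : V n, ip (-u) (-u) = ip u u := fun u =>
    Finset.sum_congr rfl fun i _ => by rw [Pi.neg_apply]; ring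
  rw [d1] at e1
  rw [d2, hneg] at e2
  rw [d3, hneg] at e3
  rw [d4, hneg] at e4
  set w := x' - x
  set a := F (x + v)
  set b := F x
  set a' := F (x' + v)
  set b' := F x'
  have k : 2 * ip (a - b) (a' - b') = ip (a - b') (a - b') + ip (b - a') (b - a') -
      ip (b - b') (b - b') - ip (a - a') (a - a') := by
    simp only [ip_sub_left, ip_sub_right]
    rw [ip_comm b a', ip_comm b b', ip_comm a a', ip_comm a b']
    ring
  have e1' : c⁻¹ * ip (v - w) (v - w) ≤ ip (a - b') (a - b') := by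
    rw [inv_mul_le_iff₀ hc]
    exact e1
  have e2' : c⁻¹ * ip (v + w) (v + w) ≤ ip (b - a') (b - a') := by
    rw [inv_mul_le_iff₀ hc]
    exact e2
  have e5 : ip (v - w) (v - w) + ip (v + w) (v + w) = 2 * ip v v + 2 * ip w w := by
    simp only [ip_sub_left, ip_sub_right, ip_add_left, ip_add_right]
    ring
  have e6 : c⁻¹ * ip (v - w) (v - w) + c⁻¹ * ip (v + w) (v + w) =
      c⁻¹ * (2 * ip v v + 2 * ip w w) := by
    rw [← mul_add, e5]
  linarith

/-- the pairing of the singular values -/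
theorem pairing {S : V n →L[ℝ] V n} (hS : ∀ u v, om (S u) (S v) = om u v) {c : ℝ} (hc : 1 ≤ c)
    (hU : ∀ u, ip (S u) (S u) ≤ c * ip u u) (hl : ∀ u, ip u u ≤ c * ip (S u) (S u)) (u : V n) :
    ip (S u) (S u) + ip (S (Jv u)) (S (Jv u)) ≤ (c + c⁻¹) * ip u u := by
  have hc0 : 0 < c := lt_of_lt_of_le one_pos hc
  have hinj : Function.Injective (S : V n →ₗ[ℝ] V n) := by
    rw [injective_iff_map_eq_zero]
    intro w hw
    refine om_nondeg w fun v => ?_
    have hw' : S w = 0 := hw
    rw [← hS, hw', om_zero_left]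
  have hsurj : Function.Surjective (S : V n →ₗ[ℝ] V n) := LinearMap.surjective_of_injective hinj
  obtain ⟨q, hq⟩ := hsurj (Jv (S u))
  have hq' : S q = Jv (S u) := hq
  have hqJ : ip (Jv u) q = ip (S u) (S u) := by
    rw [← om_eq_ip, ← hS, hq', om_Jv_right]
  have hJS : ip (Jv (S u)) (S (Jv u)) = ip u u := by
    rw [← om_eq_ip, hS, om_Jv_right]
  set a := ip (S u) (S u) with ha
  set b := ip (S (Jv u)) (S (Jv u)) with hb
  set m := ip u u with hm
  have h1 := hU (c • Jv u - q)
  have h2 := hl (q - c⁻¹ • Jv u)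
  rw [map_sub, map_smul, hq'] at h1 h2
  simp only [ip_sub_left, ip_sub_right, ip_smul_left, ip_smul_right, ip_Jv_Jv] at h1 h2
  rw [ip_comm q (Jv u), hqJ, ip_comm (S (Jv u)) (Jv (S u)), hJS, ← ha, ← hb, ← hm] at h1 h2
  rcases hc.eq_or_lt with rfl | hlt
  · have e1 := hU u
    have e2 := hU (Jv u)
    rw [ip_Jv_Jv] at e2
    rw [← ha, ← hm] at e1
    rw [← hb, ← hm] at e2
    norm_num
    linarith
  · have hi : c * c⁻¹ = 1 := mul_inv_cancel₀ hc0.ne'
    have hlt' : 0 < c - c⁻¹ := by
      have : c⁻¹ < 1 := inv_lt_one_of_one_lt₀ hlt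
      linarith
    -- divide the first inequality by `c`
    have h1' : c * b - 2 * m + c⁻¹ * a ≤ c ^ 2 * m - 2 * c * a + ip q q := by
      have := mul_le_mul_of_nonneg_left h1 (inv_nonneg.2 hc0.le)
      have e : c⁻¹ * (c * (c * b - m) - (c * m - a)) = c * b - 2 * m + c⁻¹ * a := by
        linear_combination (c * b - 2 * m) * hi
      have e' : c⁻¹ * (c * (c * (c * m - a) - (c * a - ip q q))) =
          c ^ 2 * m - 2 * c * a + ip q q := by
        linear_combination (c ^ 2 * m - 2 * c * a + ip q q) * hi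
      rw [e, e'] at this
      exact this
    have h2' : ip q q - 2 * c⁻¹ * a + c⁻¹ ^ 2 * m ≤ c * a - 2 * m + c⁻¹ * b := by
      have e : c * (a - c⁻¹ * m - c⁻¹ * (m - c⁻¹ * b)) = c * a - 2 * m + c⁻¹ * b := by
        linear_combination (-2 * m + c⁻¹ * b) * hi
      rw [e] at h2
      linarith
    have h3 : (c - c⁻¹) * (a + b) ≤ (c - c⁻¹) * ((c + c⁻¹) * m) := by
      have e : (c - c⁻¹) * ((c + c⁻¹) * m) = (c ^ 2 - c⁻¹ ^ 2) * m := by ring
      rw [e]
      nlinarith [h1', h2']
    exact le_of_mul_le_mul_left h3 hlt'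

end Pool.Agent.Helper597_mos
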