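import Pool.Agent.Helper597_mos.Cartan

/-!
# Moser's theorem for families of maps of the torus
-/

set_option autoImplicit false
set_option linter.unusedSectionVars false

open Set Filter Topology
open scoped ContDiff NNReal

noncomputable section

namespace Pool.Agent.Helper597_mos

open Pool.Agent.Helper597_torsymp Pool.Agent.GR.Flow

variable {n : ℕ} {A : Matrix (Fin n ⊕ Fin n) (Fin n ⊕ Fin n) ℤ} {Φ : ℝ × V n → V n}

theorem st_cl (s : ℝ) : Real.smoothTransition (cl s) = Real.smoothTransition s :=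
  Real.smoothTransition.projIcc

theorem st_mem (s : ℝ) : Real.smoothTransition s ∈ Icc (0 : ℝ) 1 :=
  ⟨Real.smoothTransition.nonneg s, Real.smoothTransition.le_one s⟩

theorem deriv_st_of_nonpos {r : ℝ} (hr : r ≤ 0) : deriv Real.smoothTransition r = 0 := by
  refine IsLocalMin.deriv_eq_zero (Eventually.of_forall fun y => ?_)
  rw [Real.smoothTransition.zero_of_nonpos hr]
  exact Real.smoothTransition.nonneg y

theorem deriv_st_of_one_le {r : ℝ} (hr : 1 ≤ r) : deriv Real.smoothTransition r = 0 := by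
  refine IsLocalMax.deriv_eq_zero (Eventually.of_forall fun y => ?_)
  rw [Real.smoothTransition.one_of_one_le hr]
  exact Real.smoothTransition.le_one y

theorem deriv_st_cl (s : ℝ) :
    deriv Real.smoothTransition (cl s) = deriv Real.smoothTransition s := by
  rcases le_total s 0 with h | h
  · have : cl s = 0 := by
      unfold cl
      rw [coe_projIcc, min_eq_right (h.trans zero_le_one), max_eq_left h]
    rw [this, deriv_st_of_nonpos le_rfl, deriv_st_of_nonpos h]
  · rcases le_total 1 s with h' | h'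
    · have : cl s = 1 := by
        unfold cl
        rw [coe_projIcc, min_eq_left h', max_eq_right zero_le_one]
      rw [this, deriv_st_of_one_le le_rfl, deriv_st_of_one_le h']
    · have : cl s = s := by
        unfold cl
        rw [coe_projIcc, min_eq_right h', max_eq_right h]
      rw [this]

theorem contDiff_st : ContDiff ℝ ∞ Real.smoothTransition :=
  contDiff_infty.2 fun _ => Real.smoothTransition.contDiff

theorem contDiff_deriv_st : ContDiff ℝ ∞ (deriv Real.smoothTransition) :=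
  ((contDiff_infty_iff_deriv).1 contDiff_st).2

theorem hasDerivAt_st (r : ℝ) :
    HasDerivAt Real.smoothTransition (deriv Real.smoothTransition r) r :=
  (contDiff_st.differentiable (by simp) r).hasDerivAt

/-- the standing assumptions on a family -/
structure MF0 (A : Matrix (Fin n ⊕ Fin n) (Fin n ⊕ Fin n) ℤ) (Φ : ℝ × V n → V n) : Prop where
  smooth : ContDiff ℝ ∞ Φ
  clamp : ∀ s x, Φ (cl s, x) = Φ (s, x)
  nd : ∀ s, ∀ ρ ∈ Icc (0 : ℝ) 1, ∀ x, Nd Φ (s, ρ, x)
  symp : ∀ u v : V n, om (lin A u) (lin A v) = om u v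

/-- the standing assumptions on a family of maps of the torus -/
structure MF (A : Matrix (Fin n ⊕ Fin n) (Fin n ⊕ Fin n) ℤ) (Φ : ℝ × V n → V n) : Prop
    extends MF0 A Φ where
  equi : ∀ s x (k : Fin n ⊕ Fin n → ℤ), Φ (s, x + lat k) = Φ (s, x) + lat (A.mulVec k)

variable (A Φ) in
/-- the space component of the suspended field -/
def YV (z : EE n) : V n :=
  deriv Real.smoothTransition z.2.1 • Xf A Φ (z.1, Real.smoothTransition z.2.1, z.2.2)

variable (A Φ) in
/-- the suspended field -/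
def Yf (z : EE n) : EE n := (0, 1, YV A Φ z)

theorem dx_clamp (h : MF0 A Φ) (s : ℝ) (x : V n) : dx Φ (cl s, x) = dx Φ (s, x) := by
  have hd : Differentiable ℝ Φ := h.smooth.differentiable (by simp)
  rw [← (hasFDerivAt_slice hd s x).fderiv, ← (hasFDerivAt_slice hd (cl s) x).fderiv]
  congr 1
  funext x
  exact h.clamp s x

theorem Xf_clamp (h : MF0 A Φ) (s r : ℝ) (x : V n) : Xf A Φ (cl s, r, x) = Xf A Φ (s, r, x) := by
  unfold Xf Wf lf
  simp only
  rw [dx_clamp h, h.clamp]

theorem YV_contDiff (h : MF0 A Φ) : ContDiff ℝ ∞ (YV A Φ) := by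
  rw [contDiff_iff_contDiffAt]
  intro z
  have h1 : ContDiff ℝ ∞ fun z : EE n =>
      ((z.1, Real.smoothTransition z.2.1, z.2.2) : EE n) :=
    contDiff_fst.prodMk ((contDiff_st.comp (contDiff_fst.comp contDiff_snd)).prodMk
      (contDiff_snd.comp contDiff_snd))
  have h2 : ContDiff ℝ ∞ fun z : EE n => deriv Real.smoothTransition z.2.1 :=
    contDiff_deriv_st.comp (contDiff_fst.comp contDiff_snd)
  have h3 : ContDiffAt ℝ ∞ (Xf A Φ) (z.1, Real.smoothTransition z.2.1, z.2.2) :=
    Xf_contDiffAt h.smooth (h.nd _ _ (st_mem _) _)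
  exact h2.contDiffAt.smul (ContDiffAt.comp (g := Xf A Φ) (f := fun z : EE n =>
      ((z.1, Real.smoothTransition z.2.1, z.2.2) : EE n)) z h3 h1.contDiffAt)

theorem YV_periodic (h : MF A Φ) (s r : ℝ) (x : V n) (k : Fin n ⊕ Fin n → ℤ) :
    YV A Φ (s, r, x + lat k) = YV A Φ (s, r, x) := by
  unfold YV
  simp only
  rw [Xf_periodic h.equi]

theorem YV_clamp (h : MF0 A Φ) (s r : ℝ) (x : V n) : YV A Φ (s, r, x) = YV A Φ (cl s, cl r, x) := by
  unfold YV
  simp only
  rw [Xf_clamp h, st_cl, deriv_st_cl]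

theorem exists_flow0 (h : MF0 A Φ) (hb : ∃ M : ℝ≥0, ∀ z, ‖YV A Φ z‖ ≤ M)
    (hl : ∃ K : ℝ≥0, LipschitzWith K (YV A Φ)) :
    ∃ (K : ℝ≥0) (g : ℝ → EE n → EE n), LipschitzWith K (Yf A Φ) ∧
    IsFlowOf (Yf A Φ) g ∧ ContDiff ℝ ∞ (fun p : ℝ × EE n => g p.1 p.2) ∧
    ContDiff ℝ ∞ (Yf A Φ) := by
  obtain ⟨M, hM⟩ := hb
  obtain ⟨K, hK⟩ := hl
  have h1 : ContDiff ℝ ∞ (Yf A Φ) :=
    contDiff_const.prodMk (contDiff_const.prodMk (YV_contDiff h))
  have h2 : LipschitzWith K (Yf A Φ) := by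
    have := (LipschitzWith.const (α := EE n) (0 : ℝ)).prodMk
      ((LipschitzWith.const (α := EE n) (1 : ℝ)).prodMk hK)
    rw [max_eq_right (zero_le (a := K)), max_eq_right (zero_le (a := K))] at this
    exact this
  have h3 : ∀ z, ‖Yf A Φ z‖ ≤ ((1 + M : ℝ≥0) : ℝ) := by
    intro z
    rw [NNReal.coe_add, NNReal.coe_one]
    refine max_le ?_ (max_le ?_ ?_)
    · simp only [Yf, norm_zero]
      positivity
    · simp only [Yf, norm_one]
      linarith [M.coe_nonneg]
    · exact (hM z).trans (by linarith)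
  obtain ⟨g, hg, hgs⟩ := exists_smooth_flow h1 h2 h3
  exact ⟨K, g, h2, hg, hgs, h1⟩

theorem exists_flow (h : MF A Φ) : ∃ (K : ℝ≥0) (g : ℝ → EE n → EE n), LipschitzWith K (Yf A Φ) ∧
    IsFlowOf (Yf A Φ) g ∧ ContDiff ℝ ∞ (fun p : ℝ × EE n => g p.1 p.2) ∧
    ContDiff ℝ ∞ (Yf A Φ) := by
  obtain ⟨hb, hl⟩ := lip_of_periodic (YV_contDiff h.toMF0) (YV_periodic h) (YV_clamp h.toMF0)
  exact exists_flow0 h.toMF0 hb hl

section flow

variable {K : ℝ≥0} {g : ℝ → EE n → EE n}

theorem flow_fst (hg : IsFlowOf (Yf A Φ) g) (t : ℝ) (z : EE n) : (g t z).1 = z.1 := by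
  have h1 : ∀ t, HasDerivAt (fun t => (g t z).1) 0 t := fun t =>
    (ContinuousLinearMap.fst ℝ ℝ (ℝ × V n)).hasFDerivAt.comp_hasDerivAt t (hg.deriv z t)
  have h2 := is_const_of_deriv_eq_zero (fun t => (h1 t).differentiableAt)
    (fun t => (h1 t).deriv) t 0
  rw [h2, hg.zero]

theorem flow_snd (hg : IsFlowOf (Yf A Φ) g) (t : ℝ) (z : EE n) :
    (g t z).2.1 = z.2.1 + t := by
  have h1 : ∀ t, HasDerivAt (fun t => (g t z).2.1 - t) 0 t := fun t => by
    have h2 : HasDerivAt (fun t => (g t z).2.1) 1 t :=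
      ((ContinuousLinearMap.fst ℝ ℝ (V n)).comp
        (ContinuousLinearMap.snd ℝ ℝ (ℝ × V n))).hasFDerivAt.comp_hasDerivAt t (hg.deriv z t)
    exact (h2.sub (hasDerivAt_id' t)).congr_deriv (sub_self 1)
  have h2 := is_const_of_deriv_eq_zero (fun t => (h1 t).differentiableAt)
    (fun t => (h1 t).deriv) t 0
  rw [hg.zero] at h2
  linarith

/-- the space component of the flow -/
def psi (g : ℝ → EE n → EE n) (s t : ℝ) (x : V n) : V n := (g t (s, 0, x)).2.2

theorem flow_eq (hg : IsFlowOf (Yf A Φ) g) (s t : ℝ) (x : V n) :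
    g t (s, 0, x) = (s, t, psi g s t x) := by
  have h1 := flow_fst hg t (s, 0, x)
  have h2 := flow_snd hg t (s, 0, x)
  simp only [zero_add] at h1 h2
  exact Prod.ext h1 (Prod.ext h2 rfl)

theorem psi_smooth (hgs : ContDiff ℝ ∞ (fun p : ℝ × EE n => g p.1 p.2)) :
    ContDiff ℝ ∞ fun p : ℝ × ℝ × V n => psi g p.1 p.2.1 p.2.2 := by
  have h1 : ContDiff ℝ ∞ fun p : ℝ × ℝ × V n => ((p.2.1, (p.1, 0, p.2.2)) : ℝ × EE n) :=
    (contDiff_fst.comp contDiff_snd).prodMk (contDiff_fst.prodMk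
      (contDiff_const.prodMk (contDiff_snd.comp contDiff_snd)))
  exact contDiff_snd.comp (contDiff_snd.comp (hgs.comp h1))

theorem psi_zero (hg : IsFlowOf (Yf A Φ) g) (s : ℝ) (x : V n) : psi g s 0 x = x := by
  unfold psi
  rw [hg.zero]

theorem Yf_periodic (h : MF A Φ) (k : Fin n ⊕ Fin n → ℤ) (z : EE n) :
    Yf A Φ (z + tr k) = Yf A Φ z := by
  obtain ⟨s, r, x⟩ := z
  have h1 : ((s, r, x) : EE n) + tr k = (s, r, x + lat k) := by simp [tr]
  rw [h1]
  unfold Yf
  rw [YV_periodic h]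

theorem psi_add (h : MF A Φ) (hK : LipschitzWith K (Yf A Φ)) (hg : IsFlowOf (Yf A Φ) g)
    (s t : ℝ) (x : V n) (k : Fin n ⊕ Fin n → ℤ) : psi g s t (x + lat k) = psi g s t x + lat k := by
  unfold psi
  have h1 : ((s, 0, x + lat k) : EE n) = (s, 0, x) + tr k := by simp [tr]
  rw [h1, flow_add hK hg (Yf_periodic h k)]
  rfl

theorem psi_injective (hK : LipschitzWith K (Yf A Φ)) (hg : IsFlowOf (Yf A Φ) g) (s t : ℝ) :
    Function.Injective (psi g s t) := by
  intro x y hxy
  have h1 : g t (s, 0, x) = g t (s, 0, y) := by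
    rw [flow_eq hg, flow_eq hg, hxy]
  have h2 : ∀ z, g (-t) (g t z) = z := fun z => by
    rw [← hg.add hK, neg_add_cancel, hg.zero]
  have h3 := congrArg (g (-t)) h1
  rw [h2, h2] at h3
  exact congrArg (fun z : EE n => z.2.2) h3

/-- the space derivative of the flow -/
theorem psi_variation (h : MF0 A Φ) (hK : LipschitzWith K (Yf A Φ)) (hg : IsFlowOf (Yf A Φ) g)
    (hgs : ContDiff ℝ ∞ (fun p : ℝ × EE n => g p.1 p.2)) (hY : ContDiff ℝ ∞ (Yf A Φ))
    (s t : ℝ) (x a : V n) :
    HasDerivAt (fun t => fderiv ℝ (psi g s t) x a)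
      (deriv Real.smoothTransition t • fderiv ℝ (fun y => Xf A Φ (s, Real.smoothTransition t, y))
        (psi g s t x) (fderiv ℝ (psi g s t) x a)) t := by
  have hd : ∀ t, Differentiable ℝ (g t) := fun t =>
    (hgs.comp (contDiff_const.prodMk contDiff_id)).differentiable (by simp)
  have hi : ∀ r : ℝ, HasFDerivAt (fun x : V n => ((s, r, x) : EE n))
      ((ContinuousLinearMap.inr ℝ ℝ (ℝ × V n)).comp (ContinuousLinearMap.inr ℝ ℝ (V n))) x :=
    fun r => (hasFDerivAt_prodMk_right s (r, x)).comp x (hasFDerivAt_prodMk_right r x)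
  have h0 : ∀ t, HasFDerivAt (fun x : V n => g t (s, 0, x))
      ((fderiv ℝ (g t) (s, 0, x)).comp
        ((ContinuousLinearMap.inr ℝ ℝ (ℝ × V n)).comp (ContinuousLinearMap.inr ℝ ℝ (V n)))) x :=
    fun t => (hd t _).hasFDerivAt.comp x (hi 0)
  have h1 : ∀ t, fderiv ℝ (g t) (s, 0, x) (0, 0, a) = (0, 0, fderiv ℝ (psi g s t) x a) := by
    intro t
    have e1 := h0 t
    have e2 : (fun x : V n => g t (s, 0, x)) = fun x => (s, t, psi g s t x) :=
      funext fun x => flow_eq hg s t x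
    have e3 : HasFDerivAt (psi g s t) (fderiv ℝ (psi g s t) x) x := by
      refine DifferentiableAt.hasFDerivAt ?_
      exact ((ContinuousLinearMap.snd ℝ ℝ (V n)).comp
        (ContinuousLinearMap.snd ℝ ℝ (ℝ × V n))).differentiableAt.comp x (h0 t).differentiableAt
    have e4 : HasFDerivAt (fun x => ((s, t, psi g s t x) : EE n))
        (((ContinuousLinearMap.inr ℝ ℝ (ℝ × V n)).comp (ContinuousLinearMap.inr ℝ ℝ (V n))).comp
          (fderiv ℝ (psi g s t) x)) x :=
      ((hasFDerivAt_prodMk_right s (t, psi g s t x)).comp (psi g s t x)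
        (hasFDerivAt_prodMk_right t (psi g s t x))).comp x e3
    rw [e2] at e1
    have e5 := e1.unique e4
    exact congrArg (fun L => L a) e5
  have h2 := hasDerivAt_variation hY hK hg hgs (s, 0, x) (0, 0, a) t
  rw [h1, flow_eq hg] at h2
  have h3 : fderiv ℝ (Yf A Φ) (s, t, psi g s t x) (0, 0, fderiv ℝ (psi g s t) x a) =
      (0, 0, deriv Real.smoothTransition t • fderiv ℝ
        (fun y => Xf A Φ (s, Real.smoothTransition t, y)) (psi g s t x)
          (fderiv ℝ (psi g s t) x a)) := by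
    have hXd : DifferentiableAt ℝ (fun y => Xf A Φ (s, Real.smoothTransition t, y))
        (psi g s t x) := by
      have e1 := (Xf_contDiffAt (A := A) h.smooth (h.nd s _ (st_mem t)
        (psi g s t x))).differentiableAt (by simp)
      have e2 : ContDiff ℝ ∞ (fun x : V n => ((s, Real.smoothTransition t, x) : EE n)) :=
        contDiff_const.prodMk (contDiff_const.prodMk contDiff_id)
      exact DifferentiableAt.comp (g := Xf A Φ)
        (f := fun x : V n => ((s, Real.smoothTransition t, x) : EE n)) _ e1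
        (e2.differentiable (by simp) _)
    have e1 : HasFDerivAt (fun y : V n => Yf A Φ (s, t, y))
        ((fderiv ℝ (Yf A Φ) (s, t, psi g s t x)).comp
          ((ContinuousLinearMap.inr ℝ ℝ (ℝ × V n)).comp (ContinuousLinearMap.inr ℝ ℝ (V n))))
        (psi g s t x) :=
      (hY.differentiable (by simp) _).hasFDerivAt.comp (psi g s t x)
        ((hasFDerivAt_prodMk_right s (t, psi g s t x)).comp (psi g s t x)
          (hasFDerivAt_prodMk_right t (psi g s t x)))
    have e2 : HasFDerivAt (fun y : V n => Yf A Φ (s, t, y))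
        (((ContinuousLinearMap.inr ℝ ℝ (ℝ × V n)).comp (ContinuousLinearMap.inr ℝ ℝ (V n))).comp
          (deriv Real.smoothTransition t • fderiv ℝ
            (fun y => Xf A Φ (s, Real.smoothTransition t, y)) (psi g s t x)))
        (psi g s t x) := by
      have e3 := hXd.hasFDerivAt.const_smul (deriv Real.smoothTransition t)
      exact ((hasFDerivAt_prodMk_right (0 : ℝ) ((1 : ℝ), YV A Φ (s, t, psi g s t x))).comp
        (psi g s t x) ((hasFDerivAt_prodMk_right (1 : ℝ) (YV A Φ (s, t, psi g s t x))).comp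
          (psi g s t x) e3))
    exact congrArg (fun L => L (fderiv ℝ (psi g s t) x a)) (e1.unique e2)
  rw [h3] at h2
  have h4 : (fun t => fderiv ℝ (g t) (s, 0, x) (0, 0, a)) =
      fun t => (0, 0, fderiv ℝ (psi g s t) x a) := funext h1
  rw [h4] at h2
  exact ((ContinuousLinearMap.snd ℝ ℝ (V n)).comp
    (ContinuousLinearMap.snd ℝ ℝ (ℝ × V n))).hasFDerivAt.comp_hasDerivAt t h2

end flow

end Pool.Agent.Helper597_mos
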