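import Pool.Agent.Helper597_mos.Moser

/-!
# Moser's theorem for families of maps of the torus, continued
-/

set_option autoImplicit false
set_option linter.unusedSectionVars false

open Set Filter Topology
open scoped ContDiff NNReal

noncomputable section

namespace Pool.Agent.Helper597_mos

open Pool.Agent.Helper597_torsymp Pool.Agent.GR.Flow

variable {n : ℕ} {A : Matrix (Fin n ⊕ Fin n) (Fin n ⊕ Fin n) ℤ} {Φ : ℝ × V n → V n}

variable {K : ℝ≥0} {g : ℝ → EE n → EE n}

theorem psi_deriv (hg : IsFlowOf (Yf A Φ) g) (s t : ℝ) (x : V n) :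
    HasDerivAt (fun t => psi g s t x)
      (deriv Real.smoothTransition t • Xf A Φ (s, Real.smoothTransition t, psi g s t x)) t := by
  have h1 := hg.deriv (s, 0, x) t
  rw [flow_eq hg] at h1
  exact ((ContinuousLinearMap.snd ℝ ℝ (V n)).comp
    (ContinuousLinearMap.snd ℝ ℝ (ℝ × V n))).hasFDerivAt.comp_hasDerivAt t h1

/-- **Moser's identity.** -/
theorem moser_identity (h : MF0 A Φ) (hK : LipschitzWith K (Yf A Φ)) (hg : IsFlowOf (Yf A Φ) g)
    (hgs : ContDiff ℝ ∞ (fun p : ℝ × EE n => g p.1 p.2)) (hY : ContDiff ℝ ∞ (Yf A Φ))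
    (s t : ℝ) (x a b : V n) :
    (1 - Real.smoothTransition t) *
      om (fderiv ℝ (psi g s t) x a) (fderiv ℝ (psi g s t) x b) +
    Real.smoothTransition t *
      om (dx Φ (s, psi g s t x) (fderiv ℝ (psi g s t) x a))
        (dx Φ (s, psi g s t x) (fderiv ℝ (psi g s t) x b)) = om a b := by
  set σ := Real.smoothTransition with hσ
  set y : ℝ → V n := fun t => psi g s t x with hy
  set α : ℝ → V n := fun t => fderiv ℝ (psi g s t) x a with hα
  set β : ℝ → V n := fun t => fderiv ℝ (psi g s t) x b with hβ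
  set D : V n → V n →L[ℝ] V n := fun y => dx Φ (s, y) with hD
  have hDd : Differentiable ℝ D := (dx_slice_contDiff h.smooth s).differentiable (by simp)
  have key : ∀ t, HasDerivAt (fun t => (1 - σ t) * om (α t) (β t) +
      σ t * om (D (y t) (α t)) (D (y t) (β t))) 0 t := by
    intro t
    have e0 : HasDerivAt σ (deriv σ t) t := hasDerivAt_st t
    have e0' : HasDerivAt (fun t => 1 - σ t) (-deriv σ t) t := e0.const_sub 1
    have e1 : HasDerivAt α (deriv σ t • fderiv ℝ (fun y => Xf A Φ (s, σ t, y)) (y t) (α t)) t :=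
      psi_variation h hK hg hgs hY s t x a
    have e2 : HasDerivAt β (deriv σ t • fderiv ℝ (fun y => Xf A Φ (s, σ t, y)) (y t) (β t)) t :=
      psi_variation h hK hg hgs hY s t x b
    have e3 : HasDerivAt y (deriv σ t • Xf A Φ (s, σ t, y t)) t := psi_deriv hg s t x
    have e4 : HasDerivAt (fun t => D (y t))
        (fderiv ℝ D (y t) (deriv σ t • Xf A Φ (s, σ t, y t))) t :=
      (hDd (y t)).hasFDerivAt.comp_hasDerivAt t e3
    have e5 := e4.clm_apply e1
    have e6 := e4.clm_apply e2
    have e7 := e0'.mul (hasDerivAt_om e1 e2)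
    have e8 := e0.mul (hasDerivAt_om e5 e6)
    refine (e7.add e8).congr_deriv ?_
    have hc := cartan h.smooth h.symp (s := s) (ρ := σ t) (fun x => h.nd s _ (st_mem t) x)
      (y t) (α t) (β t)
    simp only [map_smul, _root_.smul_apply, om_smul_left, om_smul_right, om_add_left,
      om_add_right]
    have hc' := congrArg (fun c => deriv σ t * c) hc
    simp only [mul_zero] at hc'
    rw [← hc']
    simp only [hD]
    ring
  have h2 := is_const_of_deriv_eq_zero (fun t => (key t).differentiableAt)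
    (fun t => (key t).deriv) t 0
  have h3 : psi g s 0 = id := funext fun x => psi_zero hg s x
  simp only [hσ, hα, hβ, Real.smoothTransition.zero, h3, fderiv_id, sub_zero, one_mul, zero_mul,
    add_zero] at h2
  exact h2

theorem psi_slice_diff (hgs : ContDiff ℝ ∞ (fun p : ℝ × EE n => g p.1 p.2)) (s t : ℝ) :
    Differentiable ℝ (psi g s t) :=
  ((psi_smooth hgs).comp (contDiff_const.prodMk
    (contDiff_const.prodMk contDiff_id))).differentiable (by simp)

/-- **Moser's theorem** for families of maps of the torus (normal form) -/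
theorem isotopic_of_MF (h : MF A Φ) (h0 : IsTorusSymp A fun x => Φ (0, x))
    (h1 : IsTorusSymp A fun x => Φ (1, x)) :
    SymplecticallyIsotopic A (fun x => Φ (0, x)) (fun x => Φ (1, x)) := by
  obtain ⟨K, g, hK, hg, hgs, hY⟩ := exists_flow h
  have hd : Differentiable ℝ Φ := h.smooth.differentiable (by simp)
  have hps := psi_smooth hgs
  -- the middle piece
  have hmid : SymplecticallyIsotopic A (fun x => Φ (0, psi g 0 1 x))
      (fun x => Φ (1, psi g 1 1 x)) := by
    have hG : ContDiff ℝ ∞ fun p : ℝ × V n => Φ (p.1, psi g p.1 1 p.2) := by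
      have e1 : ContDiff ℝ ∞ fun p : ℝ × V n => ((p.1, 1, p.2) : ℝ × ℝ × V n) :=
        contDiff_fst.prodMk (contDiff_const.prodMk contDiff_snd)
      exact h.smooth.comp (contDiff_fst.prodMk (hps.comp e1))
    refine ⟨fun s x => Φ (s, psi g s 1 x), hG, rfl, rfl, fun s _ => ?_⟩
    refine isTorusSymp_of_family (G := fun s x => Φ (s, psi g s 1 x)) hG ?_ ?_ (t₀ := 0) ?_ s
    · intro s x k
      rw [psi_add h hK hg, h.equi]
    · intro s x u v
      have e1 : HasFDerivAt (fun x => Φ (s, psi g s 1 x))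
          ((dx Φ (s, psi g s 1 x)).comp (fderiv ℝ (psi g s 1) x)) x :=
        (hasFDerivAt_slice hd s (psi g s 1 x)).comp x (psi_slice_diff hgs s 1 x).hasFDerivAt
      rw [e1.fderiv]
      have e2 := moser_identity h.toMF0 hK hg hgs hY s 1 x u v
      rw [Real.smoothTransition.one, sub_self, zero_mul, zero_add, one_mul] at e2
      exact e2
    · exact h0.injective.comp (psi_injective hK hg 0 1)
  -- the ends
  have hend : ∀ s, IsTorusSymp A (fun x => Φ (s, x)) →
      SymplecticallyIsotopic A (fun x => Φ (s, x)) (fun x => Φ (s, psi g s 1 x)) := by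
    intro s hs
    have hG : ContDiff ℝ ∞ fun p : ℝ × V n => Φ (s, psi g s p.1 p.2) := by
      have e1 : ContDiff ℝ ∞ fun p : ℝ × V n => ((s, p.1, p.2) : ℝ × ℝ × V n) :=
        contDiff_const.prodMk (contDiff_fst.prodMk contDiff_snd)
      exact h.smooth.comp (contDiff_const.prodMk (hps.comp e1))
    have hs' : ∀ y u v, om (dx Φ (s, y) u) (dx Φ (s, y) v) = om u v := by
      intro y u v
      have := hs.symplectic y u v
      rwa [(hasFDerivAt_slice hd s y).fderiv] at this
    refine ⟨fun r x => Φ (s, psi g s r x), hG, ?_, rfl, fun r _ => ?_⟩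
    · funext x
      simp only [psi_zero hg]
    refine isTorusSymp_of_family (G := fun r x => Φ (s, psi g s r x)) hG ?_ ?_ (t₀ := 0) ?_ r
    · intro r x k
      rw [psi_add h hK hg, h.equi]
    · intro r x u v
      have e1 : HasFDerivAt (fun x => Φ (s, psi g s r x))
          ((dx Φ (s, psi g s r x)).comp (fderiv ℝ (psi g s r) x)) x :=
        (hasFDerivAt_slice hd s (psi g s r x)).comp x (psi_slice_diff hgs s r x).hasFDerivAt
      rw [e1.fderiv]
      have e2 := moser_identity h.toMF0 hK hg hgs hY s r x u v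
      rw [ContinuousLinearMap.comp_apply, ContinuousLinearMap.comp_apply]
      rw [hs'] at e2 ⊢
      linarith
    · exact hs.injective.comp (psi_injective hK hg s 0)
  exact (hend 0 h0).trans (hmid.trans (hend 1 h1).symm)

/-- **Moser's theorem** for families of maps of the torus -/
theorem isotopic_of_nondegenerate (hΦ : ContDiff ℝ ∞ Φ)
    (he : ∀ s x (k : Fin n ⊕ Fin n → ℤ), Φ (s, x + lat k) = Φ (s, x) + lat (A.mulVec k))
    (hnd : ∀ s ∈ Icc (0 : ℝ) 1, ∀ ρ ∈ Icc (0 : ℝ) 1, ∀ x, Nd Φ (s, ρ, x))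
    (h0 : IsTorusSymp A fun x => Φ (0, x)) (h1 : IsTorusSymp A fun x => Φ (1, x)) :
    SymplecticallyIsotopic A (fun x => Φ (0, x)) (fun x => Φ (1, x)) := by
  set Ψ : ℝ × V n → V n := fun p => Φ (Real.smoothTransition p.1, p.2) with hΨ
  have hd : Differentiable ℝ Φ := hΦ.differentiable (by simp)
  have hΨs : ContDiff ℝ ∞ Ψ :=
    hΦ.comp ((contDiff_st.comp contDiff_fst).prodMk contDiff_snd)
  have hdΨ : Differentiable ℝ Ψ := hΨs.differentiable (by simp)
  have hdx : ∀ s x, dx Ψ (s, x) = dx Φ (Real.smoothTransition s, x) := fun s x => by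
    rw [← (hasFDerivAt_slice hd _ x).fderiv, ← (hasFDerivAt_slice hdΨ s x).fderiv]
  have hMF : MF A Ψ := by
    refine ⟨⟨hΨs, fun s x => ?_, fun s ρ hρ x => ?_, h0.om_lin⟩, fun s x k => ?_⟩
    · simp only [hΨ]
      rw [st_cl]
    · intro u hu
      refine hnd _ (st_mem s) ρ hρ x u fun v => ?_
      have := hu v
      simp only [hdx] at this
      exact this
    · exact he _ x k
  have e0 : (fun x => Ψ (0, x)) = fun x => Φ (0, x) := by
    funext x
    simp only [hΨ, Real.smoothTransition.zero]
  have e1 : (fun x => Ψ (1, x)) = fun x => Φ (1, x) := by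
    funext x
    simp only [hΨ, Real.smoothTransition.one]
  have := isotopic_of_MF hMF (e0 ▸ h0) (e1 ▸ h1)
  rwa [e0, e1] at this

end Pool.Agent.Helper597_mos
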