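import Pool.Agent.Helper597_mos.CritM

/-!
# Mean oscillation
-/

set_option autoImplicit false
set_option linter.unusedSectionVars false

open Set Filter Topology MeasureTheory
open scoped ContDiff NNReal

noncomputable section

namespace Pool.Agent.Helper597_mos

open Pool.Agent.Helper597_torsymp

variable {n : ℕ} {A : Matrix (Fin n ⊕ Fin n) (Fin n ⊕ Fin n) ℤ}

/-- the euclidean inner product -/
def ip (u v : V n) : ℝ := ∑ i, u i * v i

theorem ip_comm (u v : V n) : ip u v = ip v u :=
  Finset.sum_congr rfl fun _ _ => mul_comm _ _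

theorem ip_add_left (u v w : V n) : ip (u + v) w = ip u w + ip v w := by
  unfold ip
  rw [← Finset.sum_add_distrib]
  exact Finset.sum_congr rfl fun i _ => by rw [Pi.add_apply]; ring

theorem ip_smul_left (c : ℝ) (u v : V n) : ip (c • u) v = c * ip u v := by
  unfold ip
  rw [Finset.mul_sum]
  exact Finset.sum_congr rfl fun i _ => by rw [Pi.smul_apply, smul_eq_mul]; ring

theorem ip_sub_left (u v w : V n) : ip (u - v) w = ip u w - ip v w := by
  unfold ip
  rw [← Finset.sum_sub_distrib]
  exact Finset.sum_congr rfl fun i _ => by rw [Pi.sub_apply]; ring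

theorem ip_add_right (u v w : V n) : ip u (v + w) = ip u v + ip u w := by
  rw [ip_comm, ip_add_left, ip_comm v, ip_comm w]

theorem ip_smul_right (c : ℝ) (u v : V n) : ip u (c • v) = c * ip u v := by
  rw [ip_comm, ip_smul_left, ip_comm]

theorem ip_sub_right (u v w : V n) : ip u (v - w) = ip u v - ip u w := by
  rw [ip_comm, ip_sub_left, ip_comm v, ip_comm w]

theorem ip_self_nonneg (u : V n) : 0 ≤ ip u u :=
  Finset.sum_nonneg fun _ _ => mul_self_nonneg _

theorem ip_self_pos {u : V n} (hu : u ≠ 0) : 0 < ip u u := by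
  refine lt_of_le_of_ne (ip_self_nonneg u) fun h => hu ?_
  funext i
  have := (Finset.sum_eq_zero_iff_of_nonneg fun j _ => mul_self_nonneg (u j)).1 h.symm i
    (Finset.mem_univ i)
  exact mul_self_eq_zero.1 this

/-- the standard complex structure -/
def Jv (u : V n) : V n :=
  Sum.elim (fun i => -u (Sum.inr i)) (fun i => u (Sum.inl i))

theorem om_eq_ip (u v : V n) : om u v = ip (Jv u) v := by
  unfold om ip Jv
  rw [Fintype.sum_sum_type, ← Finset.sum_add_distrib]
  refine Finset.sum_congr rfl fun i _ => ?_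
  simp only [Sum.elim_inl, Sum.elim_inr]
  ring

theorem om_Jv_right (u v : V n) : om u (Jv v) = ip u v := by
  unfold om ip Jv
  rw [Fintype.sum_sum_type, ← Finset.sum_add_distrib]
  refine Finset.sum_congr rfl fun i _ => ?_
  simp only [Sum.elim_inl, Sum.elim_inr]
  ring

theorem ip_Jv_Jv (u v : V n) : ip (Jv u) (Jv v) = ip u v := by
  rw [← om_eq_ip, om_Jv_right]

theorem ip_Jv_self (u : V n) : ip (Jv u) u = 0 := by
  rw [← om_eq_ip]
  unfold om
  exact Finset.sum_eq_zero fun i _ => by ring

theorem om_le (u v : V n) : om u v ≤ (ip u u + ip v v) / 2 := by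
  have h := ip_self_nonneg (Jv u - v)
  rw [ip_sub_left, ip_sub_right, ip_sub_right, ip_Jv_Jv, ip_comm v (Jv u), ← om_eq_ip] at h
  linarith

/-- Bessel's inequality -/
theorem bessel (r u : V n) : ip r u ^ 2 + ip r (Jv u) ^ 2 ≤ ip r r * ip u u := by
  by_cases hu : u = 0
  · subst hu
    have h1 : ip r (0 : V n) = 0 := by simp [ip]
    have h2 : Jv (0 : V n) = 0 := by
      funext i
      rcases i with i | i <;> simp [Jv]
    rw [h2, h1]
    simp [ip]
  have hpos := ip_self_pos hu
  have h := ip_self_nonneg (ip u u • r - ip r u • u - ip r (Jv u) • Jv u)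
  simp only [ip_sub_left, ip_sub_right, ip_smul_left, ip_smul_right, ip_Jv_Jv, ip_Jv_self,
    ip_comm (Jv u) r, ip_comm u (Jv u), ip_comm u r] at h
  have h1 : ip u u * (ip r r * ip u u - (ip r u ^ 2 + ip r (Jv u) ^ 2)) ≥ 0 := by nlinarith [h]
  have h2 := nonneg_of_mul_nonneg_right h1 hpos
  linarith

/-- the square of the Frobenius norm -/
def frob (L : V n →L[ℝ] V n) : ℝ := ∑ β, ip (L (bv β)) (L (bv β))

theorem frob_ge (L : V n →L[ℝ] V n) (u : V n) :
    ip (L u) (L u) + ip (L (Jv u)) (L (Jv u)) ≤ frob L * ip u u := by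
  have h1 : ∀ (w : V n) (i : Fin n ⊕ Fin n), L w i = ip (fun β => L (bv β) i) w := by
    intro w i
    conv_lhs => rw [vec_eq_sum w, map_sum, Finset.sum_apply]
    unfold ip
    refine Finset.sum_congr rfl fun β _ => ?_
    rw [map_smul, Pi.smul_apply, smul_eq_mul]
    ring
  have h2 : ∀ w : V n, ip (L w) (L w) = ∑ i, ip (fun β => L (bv β) i) w ^ 2 := fun w =>
    Finset.sum_congr rfl fun i _ => by rw [← h1, sq]
  rw [h2, h2, ← Finset.sum_add_distrib]
  have h3 : frob L = ∑ i, ip (fun β => L (bv β) i) (fun β => L (bv β) i) := by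
    unfold frob ip
    exact Finset.sum_comm
  rw [h3, Finset.sum_mul]
  exact Finset.sum_le_sum fun i _ => bessel _ _

theorem continuous_ip {X : Type} [TopologicalSpace X] {f g : X → V n} (hf : Continuous f)
    (hg : Continuous g) : Continuous fun x => ip (f x) (g x) :=
  continuous_finsetSum _ fun i _ =>
    ((continuous_apply i).comp hf).mul ((continuous_apply i).comp hg)

theorem continuous_Jv {X : Type} [TopologicalSpace X] {f : X → V n} (hf : Continuous f) :
    Continuous fun x => Jv (f x) := by
  refine continuous_pi fun i => ?_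
  rcases i with i | i
  · have h : Continuous fun x => f x (Sum.inr i) := (continuous_apply _).comp hf
    exact h.neg
  · have h : Continuous fun x => f x (Sum.inl i) := (continuous_apply _).comp hf
    exact h

theorem continuous_om {X : Type} [TopologicalSpace X] {f g : X → V n} (hf : Continuous f)
    (hg : Continuous g) : Continuous fun x => om (f x) (g x) := by
  simp only [om_eq_ip]
  exact continuous_ip (continuous_Jv hf) hg

theorem integral_cube_const {W : Type} [NormedAddCommGroup W] [NormedSpace ℝ W] [CompleteSpace W]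
    (c : W) : ∫ _ in Icc (0 : V n) 1, c = c := by
  rw [integral_const, probReal_univ, one_smul]

theorem integral_cube_sub {W : Type} [NormedAddCommGroup W] [NormedSpace ℝ W] {f g : V n → W}
    (hf : Continuous f) (hg : Continuous g) :
    ∫ y in Icc (0 : V n) 1, (f y - g y) =
      (∫ y in Icc (0 : V n) 1, f y) - ∫ y in Icc (0 : V n) 1, g y :=
  integral_sub (integrable_cube hf) (integrable_cube hg)

theorem integral_cube_add {W : Type} [NormedAddCommGroup W] [NormedSpace ℝ W] {f g : V n → W}
    (hf : Continuous f) (hg : Continuous g) :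
    ∫ y in Icc (0 : V n) 1, (f y + g y) =
      (∫ y in Icc (0 : V n) 1, f y) + ∫ y in Icc (0 : V n) 1, g y :=
  integral_add (integrable_cube hf) (integrable_cube hg)

/-- integrals and inner products -/
theorem integral_ip {f : V n → V n} (hf : Continuous f) (w : V n) :
    ∫ y in Icc (0 : V n) 1, ip (f y) w = ip (∫ y in Icc (0 : V n) 1, f y) w := by
  set L : V n →L[ℝ] ℝ := LinearMap.toContinuousLinearMap
    { toFun := fun u => ip u w
      map_add' := fun u v => ip_add_left u v w
      map_smul' := fun c u => ip_smul_left c u w } with hL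
  exact L.integral_comp_comm (integrable_cube hf)

theorem integral_om {f : V n → V n} (hf : Continuous f) (w : V n) :
    ∫ y in Icc (0 : V n) 1, om (f y) w = om (∫ y in Icc (0 : V n) 1, f y) w := by
  set L : V n →L[ℝ] ℝ := LinearMap.toContinuousLinearMap
    { toFun := fun u => om u w
      map_add' := fun u v => om_add_left u v w
      map_smul' := fun c u => om_smul_left c u w } with hL
  exact L.integral_comp_comm (integrable_cube hf)

/-- the covariance -/
theorem covariance_om {F : V n → V n} (hF : ContDiff ℝ ∞ F)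
    (hsy : ∀ x u v, om (fderiv ℝ F x u) (fderiv ℝ F x v) = om u v)
    (T : V n →L[ℝ] V n) (x u v : V n) :
    ∫ y in Icc (0 : V n) 1, om ((fderiv ℝ F (x + T y) - mean F T x) u)
      ((fderiv ℝ F (x + T y) - mean F T x) v) = om u v - om (mean F T x u) (mean F T x v) := by
  set M := mean F T x with hM
  have hc : Continuous fun y => fderiv ℝ F (x + T y) :=
    (hF.continuous_fderiv (by simp)).comp (continuous_const.add T.continuous)
  have hc' : ∀ w : V n, Continuous fun y => fderiv ℝ F (x + T y) w := fun w =>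
    hc.clm_apply continuous_const
  have h1 : ∀ y, om ((fderiv ℝ F (x + T y) - M) u) ((fderiv ℝ F (x + T y) - M) v) =
      (om u v + om (M u) (M v)) - (om (fderiv ℝ F (x + T y) u) (M v) -
        om (fderiv ℝ F (x + T y) v) (M u)) := by
    intro y
    rw [_root_.sub_apply, _root_.sub_apply, om_sub_left, om_sub_right, om_sub_right,
      hsy, om_swap (M u) (fderiv ℝ F (x + T y) v)]
    ring
  have homc : ∀ (w w' : V n), Continuous fun y => om (fderiv ℝ F (x + T y) w) w' := fun w w' =>
    continuous_om (hc' w) continuous_const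
  simp only [h1]
  have e1 : Continuous fun y => om (fderiv ℝ F (x + T y) u) (M v) -
      om (fderiv ℝ F (x + T y) v) (M u) := (homc u (M v)).sub (homc v (M u))
  rw [integral_cube_sub continuous_const e1,
    integral_cube_sub (homc u (M v)) (homc v (M u)),
    integral_om (hc' u), integral_om (hc' v), ← mean_apply hF, ← mean_apply hF,
    ← hM, om_swap (M v) (M u), integral_cube_const]
  ring

theorem covariance_ip {F : V n → V n} (hF : ContDiff ℝ ∞ F) (T : V n →L[ℝ] V n) (x u : V n) :
    ∫ y in Icc (0 : V n) 1, ip ((fderiv ℝ F (x + T y) - mean F T x) u)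
      ((fderiv ℝ F (x + T y) - mean F T x) u) =
    (∫ y in Icc (0 : V n) 1, ip (fderiv ℝ F (x + T y) u) (fderiv ℝ F (x + T y) u)) -
      ip (mean F T x u) (mean F T x u) := by
  set M := mean F T x with hM
  have hc : Continuous fun y => fderiv ℝ F (x + T y) :=
    (hF.continuous_fderiv (by simp)).comp (continuous_const.add T.continuous)
  have hc' : Continuous fun y => fderiv ℝ F (x + T y) u := hc.clm_apply continuous_const
  have h1 : ∀ y, ip ((fderiv ℝ F (x + T y) - M) u) ((fderiv ℝ F (x + T y) - M) u) =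
      (ip (fderiv ℝ F (x + T y) u) (fderiv ℝ F (x + T y) u) + ip (M u) (M u)) -
        2 * ip (fderiv ℝ F (x + T y) u) (M u) := by
    intro y
    rw [_root_.sub_apply, ip_sub_left, ip_sub_right, ip_sub_right,
      ip_comm (M u) (fderiv ℝ F (x + T y) u)]
    ring
  simp only [h1]
  have e1 : Continuous fun y => ip (fderiv ℝ F (x + T y) u) (fderiv ℝ F (x + T y) u) +
      ip (M u) (M u) := (continuous_ip hc' hc').add continuous_const
  have e2 : Continuous fun y => 2 * ip (fderiv ℝ F (x + T y) u) (M u) :=
    (continuous_ip hc' continuous_const).const_mul 2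
  rw [integral_cube_sub e1 e2,
    integral_cube_add (continuous_ip hc' hc') continuous_const,
    integral_const_mul, integral_ip hc', ← mean_apply hF, ← hM, integral_cube_const]
  ring

/-- the lower bound of the mean form -/
theorem om_mean_lower {F : V n → V n} (hF : ContDiff ℝ ∞ F)
    (hsy : ∀ x u v, om (fderiv ℝ F x u) (fderiv ℝ F x v) = om u v)
    {S : V n →L[ℝ] V n} (hS : ∀ u v, om (S u) (S v) = om u v)
    (T : V n →L[ℝ] V n) (x : V n) {κ : ℝ}
    (hosc : ∫ y in Icc (0 : V n) 1, frob (S.comp (fderiv ℝ F (x + T y) - mean F T x)) ≤ κ)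
    (u : V n) : (1 - κ / 2) * ip u u ≤ om (mean F T x u) (mean F T x (Jv u)) := by
  set M := mean F T x with hM
  have hc : Continuous fun y => S.comp (fderiv ℝ F (x + T y) - M) :=
    continuous_const.clm_comp (((hF.continuous_fderiv (by simp)).comp
      (continuous_const.add T.continuous)).sub continuous_const)
  have hc' : ∀ w : V n, Continuous fun y => (S.comp (fderiv ℝ F (x + T y) - M)) w := fun w =>
    hc.clm_apply continuous_const
  have hfc : Continuous fun y => frob (S.comp (fderiv ℝ F (x + T y) - M)) :=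
    continuous_finsetSum _ fun β _ => continuous_ip (hc' _) (hc' _)
  have h1 := covariance_om hF hsy T x u (Jv u)
  rw [om_Jv_right, ← hM] at h1
  have h2 : ∫ y in Icc (0 : V n) 1, om ((fderiv ℝ F (x + T y) - M) u)
      ((fderiv ℝ F (x + T y) - M) (Jv u)) ≤
      ∫ y in Icc (0 : V n) 1, frob (S.comp (fderiv ℝ F (x + T y) - M)) * (ip u u / 2) := by
    have e0 : ∀ y, om ((fderiv ℝ F (x + T y) - M) u) ((fderiv ℝ F (x + T y) - M) (Jv u)) =
        om ((S.comp (fderiv ℝ F (x + T y) - M)) u)
          ((S.comp (fderiv ℝ F (x + T y) - M)) (Jv u)) := fun y => (hS _ _).symm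
    simp only [e0]
    refine integral_mono (integrable_cube ?_) (integrable_cube (hfc.mul continuous_const))
      fun y => ?_
    · exact continuous_om (hc' _) (hc' _)
    · simp only
      have e1 := om_le ((S.comp (fderiv ℝ F (x + T y) - M)) u)
        ((S.comp (fderiv ℝ F (x + T y) - M)) (Jv u))
      have e2 := frob_ge (S.comp (fderiv ℝ F (x + T y) - M)) u
      linarith
  rw [integral_mul_const] at h2
  have h4 : (∫ y in Icc (0 : V n) 1, frob (S.comp (fderiv ℝ F (x + T y) - M))) * (ip u u / 2) ≤
      κ * (ip u u / 2) :=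
    mul_le_mul_of_nonneg_right hosc (by linarith [ip_self_nonneg u])
  linarith

/-- no form `(1 - ρ) ω + ρ M^* ω`, `0 ≤ ρ ≤ 1`, is degenerate -/
def Good (M : V n →L[ℝ] V n) : Prop :=
  ∀ ρ ∈ Icc (0 : ℝ) 1, ∀ u, (∀ v, (1 - ρ) * om u v + ρ * om (M u) (M v) = 0) → u = 0

/-- the criterion by positivity -/
theorem good_of_pos {M : V n →L[ℝ] V n} (h : ∀ u, u ≠ 0 → 0 < om (M u) (M (Jv u))) : Good M := by
  intro ρ hρ u hu
  by_contra hne
  have hpos := ip_self_pos hne
  have h3 := hu (Jv u)
  rw [om_Jv_right] at h3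
  have h5 := h u hne
  have h6 : 0 ≤ ρ * om (M u) (M (Jv u)) := mul_nonneg hρ.1 h5.le
  have h7 : 0 ≤ (1 - ρ) * ip u u := mul_nonneg (by linarith [hρ.2]) hpos.le
  have h8 : (1 - ρ) * ip u u = 0 := by linarith
  have h9 : ρ * om (M u) (M (Jv u)) = 0 := by linarith
  rcases mul_eq_zero.1 h8 with h | h
  · rcases mul_eq_zero.1 h9 with h' | h'
    · linarith
    · linarith
  · linarith

/-- small oscillation implies nondegeneracy -/
theorem good_of_osc {F : V n → V n} (hF : ContDiff ℝ ∞ F)
    (hsy : ∀ x u v, om (fderiv ℝ F x u) (fderiv ℝ F x v) = om u v)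
    {S : V n →L[ℝ] V n} (hS : ∀ u v, om (S u) (S v) = om u v) (T : V n →L[ℝ] V n) (x : V n)
    (hosc : ∫ y in Icc (0 : V n) 1, frob (S.comp (fderiv ℝ F (x + T y) - mean F T x)) < 2) :
    Good (mean F T x) := by
  refine good_of_pos fun u hu => ?_
  have h1 := om_mean_lower hF hsy hS T x le_rfl u
  have h2 : 0 < (1 - (∫ y in Icc (0 : V n) 1,
      frob (S.comp (fderiv ℝ F (x + T y) - mean F T x))) / 2) * ip u u :=
    mul_pos (by linarith) (ip_self_pos hu)
  linarith

theorem good_of_symp {M : V n →L[ℝ] V n} (hM : ∀ u v, om (M u) (M v) = om u v) : Good M :=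
  good_of_pos fun u hu => by
    rw [hM, om_Jv_right]
    exact ip_self_pos hu

end Pool.Agent.Helper597_mos
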