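import Pool.Agent.Helper597_mos.Pinch

/-!
# Comparison of two symplectomorphisms in terms of the means of the derivatives
-/

set_option autoImplicit false
set_option linter.unusedSectionVars false

open Set Filter Topology MeasureTheory
open scoped ContDiff NNReal

noncomputable section

namespace Pool.Agent.Helper597_mos

open Pool.Agent.Helper597_torsymp

variable {n : ℕ} {A : Matrix (Fin n ⊕ Fin n) (Fin n ⊕ Fin n) ℤ}

/-- the parameter of the scale -/
def sg (r : ℝ) : ℝ := Real.smoothTransition (3 * r) * Real.smoothTransition (3 - 3 * r)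

/-- the parameter of the interpolation -/
def ta (r : ℝ) : ℝ := Real.smoothTransition (3 * r - 1)

theorem sg_mem (r : ℝ) : sg r ∈ Icc (0 : ℝ) 1 := by
  have h1 := st_mem (3 * r)
  have h2 := st_mem (3 - 3 * r)
  exact ⟨mul_nonneg h1.1 h2.1, mul_le_one₀ h1.2 h2.1 h2.2⟩

theorem ta_mem (r : ℝ) : ta r ∈ Icc (0 : ℝ) 1 := st_mem _

theorem sg_contDiff : ContDiff ℝ ∞ sg :=
  (contDiff_st.comp (contDiff_const.mul contDiff_id)).mul
    (contDiff_st.comp (contDiff_const.sub (contDiff_const.mul contDiff_id)))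

theorem ta_contDiff : ContDiff ℝ ∞ ta :=
  contDiff_st.comp ((contDiff_const.mul contDiff_id).sub contDiff_const)

theorem sg_zero : sg 0 = 0 := by
  unfold sg
  rw [mul_zero, Real.smoothTransition.zero, zero_mul]

theorem sg_one : sg 1 = 0 := by
  unfold sg
  rw [mul_one, sub_self, Real.smoothTransition.zero, mul_zero]

theorem ta_zero : ta 0 = 0 := by
  unfold ta
  exact Real.smoothTransition.zero_of_nonpos (by norm_num)

theorem ta_one : ta 1 = 1 := by
  unfold ta
  exact Real.smoothTransition.one_of_one_le (by norm_num)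

theorem sg_ta (r : ℝ) : ta r = 0 ∨ ta r = 1 ∨ sg r = 1 := by
  rcases le_total r (1 / 3) with h | h
  · left
    exact Real.smoothTransition.zero_of_nonpos (by linarith)
  · rcases le_total (2 / 3) r with h' | h'
    · right
      left
      exact Real.smoothTransition.one_of_one_le (by linarith)
    · right
      right
      unfold sg
      rw [Real.smoothTransition.one_of_one_le (by linarith),
        Real.smoothTransition.one_of_one_le (by linarith), mul_one]

/-- **Comparison of two symplectomorphisms** in terms of the means of their derivatives. -/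
theorem isotopic_of_means_pair {F G : V n → V n} (hF : IsTorusSymp A F) (hG : IsTorusSymp A G)
    {T : ℝ → V n →L[ℝ] V n} (hT : ContDiff ℝ ∞ T) (h0 : T 0 = 0)
    (hgF : ∀ s ∈ Icc (0 : ℝ) 1, ∀ x, Good (mean F (T s) x))
    (hgG : ∀ s ∈ Icc (0 : ℝ) 1, ∀ x, Good (mean G (T s) x))
    (hFG : ∀ t ∈ Icc (0 : ℝ) 1, ∀ x, Good ((1 - t) • mean F (T 1) x + t • mean G (T 1) x)) :
    SymplecticallyIsotopic A F G := by
  set Φ : ℝ × V n → V n := fun p =>
    (1 - ta p.1) • avg F T (sg p.1, p.2) + ta p.1 • avg G T (sg p.1, p.2) with hΦ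
  have hs : ContDiff ℝ ∞ fun p : ℝ × V n => ((sg p.1, p.2) : ℝ × V n) :=
    (sg_contDiff.comp contDiff_fst).prodMk contDiff_snd
  have ht : ContDiff ℝ ∞ fun p : ℝ × V n => ta p.1 := ta_contDiff.comp contDiff_fst
  have hΦs : ContDiff ℝ ∞ Φ :=
    ((contDiff_const.sub ht).smul ((avg_contDiff hF.smooth hT).comp hs)).add
      (ht.smul ((avg_contDiff hG.smooth hT).comp hs))
  have hdx : ∀ r x, dx Φ (r, x) = (1 - ta r) • mean F (T (sg r)) x +
      ta r • mean G (T (sg r)) x := by
    intro r x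
    have h1 : HasFDerivAt (fun x => Φ (r, x)) ((1 - ta r) • mean F (T (sg r)) x +
        ta r • mean G (T (sg r)) x) x :=
      ((avg_hasFDerivAt hF.smooth (sg r) x).const_smul (1 - ta r)).add
        ((avg_hasFDerivAt hG.smooth (sg r) x).const_smul (ta r))
    exact (hasFDerivAt_slice (hΦs.differentiable (by simp)) r x).unique h1
  have e0 : (fun x => Φ (0, x)) = F := by
    funext x
    simp only [hΦ, ta_zero, sg_zero, avg_zero h0]
    simp
  have e1 : (fun x => Φ (1, x)) = G := by
    funext x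
    simp only [hΦ, ta_one, sg_one, avg_zero h0]
    simp
  have h2 : SymplecticallyIsotopic A (fun x => Φ (0, x)) (fun x => Φ (1, x)) := by
    refine isotopic_of_nondegenerate hΦs ?_ ?_ (by rw [e0]; exact hF) (by rw [e1]; exact hG)
    · intro r x k
      simp only [hΦ]
      rw [avg_add hF.smooth hF.equivariant, avg_add hG.smooth hG.equivariant, smul_add, smul_add]
      have : lat (A.mulVec k) = (1 - ta r) • (lat (A.mulVec k) : V n) +
          ta r • (lat (A.mulVec k) : V n) := by
        rw [← add_smul, sub_add_cancel, one_smul]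
      conv_rhs => rw [this]
      abel
    · intro r _ ρ hρ x u hu
      have hu' : ∀ v, (1 - ρ) * om u v + ρ * om (((1 - ta r) • mean F (T (sg r)) x +
          ta r • mean G (T (sg r)) x) u) (((1 - ta r) • mean F (T (sg r)) x +
          ta r • mean G (T (sg r)) x) v) = 0 := by
        intro v
        have h3 := hu v
        simp only [hdx] at h3
        exact h3
      rcases sg_ta r with h | h | h
      · rw [h, sub_zero, one_smul, zero_smul, add_zero] at hu'
        exact hgF _ (sg_mem r) x ρ hρ u hu'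
      · rw [h, sub_self, one_smul, zero_smul, zero_add] at hu'
        exact hgG _ (sg_mem r) x ρ hρ u hu'
      · rw [h] at hu'
        exact hFG _ (ta_mem r) x ρ hρ u hu'
  rwa [e0, e1] at h2

/-! ### Positivity -/

/-- the difference of two means -/
theorem frob_mean_sub {F G : V n → V n} (hF : ContDiff ℝ ∞ F) (hG : ContDiff ℝ ∞ G) {δ : ℝ}
    (hδ : ∀ x, ip (F x - G x) (F x - G x) ≤ δ) {s : ℝ} (hs : 0 < s) (x : V n) :
    frob (mean F (sc s) x - mean G (sc s) x) ≤ 2 * n * (4 * δ / s ^ 2) := by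
  unfold frob
  have hcard : ((Finset.univ : Finset (Fin n ⊕ Fin n)).card : ℝ) = 2 * n := by
    rw [Finset.card_univ, Fintype.card_sum, Fintype.card_fin]
    push_cast
    ring
  rw [← hcard, ← nsmul_eq_mul, ← Finset.sum_const]
  refine Finset.sum_le_sum fun β _ => ?_
  set z : V n → V n := fun y => x + sc s (Function.update y β 0) with hz
  have hzc : Continuous z := continuous_const.add ((sc s).continuous.comp
    (continuous_update_zero β))
  have hcf : ∀ {H : V n → V n}, ContDiff ℝ ∞ H →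
      Continuous fun y => H (z y + sc s (bv β)) - H (z y) := fun hH =>
    (hH.continuous.comp (hzc.add continuous_const)).sub (hH.continuous.comp hzc)
  set Δ : V n → V n := fun y => (F (z y + sc s (bv β)) - F (z y)) -
    (G (z y + sc s (bv β)) - G (z y)) with hΔ
  have hΔc : Continuous Δ := (hcf hF).sub (hcf hG)
  have h1 : mean F (sc s) x (sc s (bv β)) - mean G (sc s) x (sc s (bv β)) =
      ∫ y in Icc (0 : V n) 1, Δ y := by
    rw [mean_apply_image hF, mean_apply_image hG]
    exact (integral_cube_sub (hcf hF) (hcf hG)).symm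
  set m := ∫ y in Icc (0 : V n) 1, Δ y with hm
  have hsq : ∀ a b : V n, ip (a - b) (a - b) ≤ 2 * ip a a + 2 * ip b b := by
    intro a b
    have h := ip_self_nonneg (a + b)
    simp only [ip_add_left, ip_add_right, ip_sub_left, ip_sub_right] at h ⊢
    linarith
  have h2 : ∀ y, ip (Δ y) (Δ y) ≤ 4 * δ := by
    intro y
    have e : Δ y = (F (z y + sc s (bv β)) - G (z y + sc s (bv β))) - (F (z y) - G (z y)) := by
      simp only [hΔ]
      abel
    rw [e]
    refine (hsq _ _).trans ?_
    linarith [hδ (z y + sc s (bv β)), hδ (z y)]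
  have h3 : ip m m ≤ 4 * δ := by
    have e1 : ∀ y, 2 * ip (Δ y) m ≤ 4 * δ + ip m m := by
      intro y
      have h := ip_self_nonneg (Δ y - m)
      simp only [ip_sub_left, ip_sub_right] at h
      rw [ip_comm m (Δ y)] at h
      linarith [h2 y]
    have e2 : ∫ y in Icc (0 : V n) 1, 2 * ip (Δ y) m ≤
        ∫ y in Icc (0 : V n) 1, (4 * δ + ip m m) := by
      refine integral_mono (integrable_cube ?_) (integrable_cube continuous_const) e1
      exact (continuous_ip hΔc continuous_const).const_mul 2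
    rw [integral_const_mul, integral_ip hΔc, ← hm, integral_cube_const] at e2
    linarith
  rw [← h1, ← _root_.sub_apply, sc_apply, map_smul, ip_smul_left, ip_smul_right] at h3
  rw [le_div_iff₀ (by positivity)]
  refine le_trans (le_of_eq (by ring)) h3

theorem mean_comp {F : V n → V n} (hF : ContDiff ℝ ∞ F) (S T : V n →L[ℝ] V n) (x : V n) :
    mean (fun x => S (F x)) T x = S.comp (mean F T x) := by
  ext1 u
  have h1 : ContDiff ℝ ∞ fun x => S (F x) := S.contDiff.comp hF
  have hc : Continuous fun y => fderiv ℝ F (x + T y) u :=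
    ((hF.continuous_fderiv (by simp)).comp
      (continuous_const.add T.continuous)).clm_apply continuous_const
  rw [mean_apply h1, ContinuousLinearMap.comp_apply, mean_apply hF,
    ← S.integral_comp_comm (integrable_cube hc)]
  congr 1
  funext y
  have h2 : HasFDerivAt (fun x => S (F x)) (S.comp (fderiv ℝ F (x + T y))) (x + T y) :=
    S.hasFDerivAt.comp _ (hF.differentiable (by simp) _).hasFDerivAt
  rw [h2.fderiv]
  rfl

theorem frob_mean_sub_comp {F G : V n → V n} (hF : ContDiff ℝ ∞ F) (hG : ContDiff ℝ ∞ G)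
    (S : V n →L[ℝ] V n) {δ : ℝ} (hδ : ∀ x, ip (S (F x - G x)) (S (F x - G x)) ≤ δ) {s : ℝ}
    (hs : 0 < s) (x : V n) :
    frob (S.comp (mean F (sc s) x - mean G (sc s) x)) ≤ 2 * n * (4 * δ / s ^ 2) := by
  have h1 := frob_mean_sub (F := fun x => S (F x)) (G := fun x => S (G x))
    (S.contDiff.comp hF) (S.contDiff.comp hG) (δ := δ) (fun x => by
      have := hδ x
      rwa [map_sub] at this) hs x
  rw [mean_comp hF, mean_comp hG, ← ContinuousLinearMap.comp_sub] at h1
  exact h1

/-- the mean at scale zero -/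
theorem mean_zero (F : V n → V n) (x : V n) : mean F (sc 0) x = fderiv ℝ F x := by
  have e : ∀ y, x + sc 0 y = x := fun y => by rw [sc_apply, zero_smul, add_zero]
  unfold mean
  simp only [e]
  exact integral_cube_const _

/-- positivity of the interpolated means -/
theorem good_interp {F G : V n → V n} (hF : ContDiff ℝ ∞ F)
    (hsF : ∀ x u v, om (fderiv ℝ F x u) (fderiv ℝ F x v) = om u v) (hG : ContDiff ℝ ∞ G)
    (hsG : ∀ x u v, om (fderiv ℝ G x u) (fderiv ℝ G x v) = om u v)
    {S : V n →L[ℝ] V n} (hS : ∀ u v, om (S u) (S v) = om u v) {ε κ δ : ℝ} (hε : 0 < ε) (x : V n)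
    (hoF : ∫ y in Icc (0 : V n) 1,
      frob (S.comp (fderiv ℝ F (x + sc ε y) - mean F (sc ε) x)) ≤ κ)
    (hoG : ∫ y in Icc (0 : V n) 1,
      frob (S.comp (fderiv ℝ G (x + sc ε y) - mean G (sc ε) x)) ≤ κ)
    (hδ : ∀ x, ip (S (F x - G x)) (S (F x - G x)) ≤ δ) (hκ : κ / 2 + n * δ / ε ^ 2 < 1)
    {t : ℝ} (ht : t ∈ Icc (0 : ℝ) 1) :
    Good ((1 - t) • mean F (sc ε) x + t • mean G (sc ε) x) := by
  have hδ0 : 0 ≤ δ := (ip_self_nonneg _).trans (hδ 0)
  refine good_of_pos fun u hu => ?_
  have hpos := ip_self_pos hu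
  have h3 := frob_mean_sub_comp hF hG S hδ hε x
  have h1 := om_mean_lower hF hsF hS (sc ε) x hoF u
  have h2 := om_mean_lower hG hsG hS (sc ε) x hoG u
  set M := mean F (sc ε) x
  set N := mean G (sc ε) x
  have h4 := frob_ge (S.comp (M - N)) u
  have h5 := om_le ((S.comp (M - N)) u) ((S.comp (M - N)) (Jv u))
  have h5' : om ((S.comp (M - N)) u) ((S.comp (M - N)) (Jv u)) =
      om ((M - N) u) ((M - N) (Jv u)) := hS _ _
  have h6 : om (((1 - t) • M + t • N) u) (((1 - t) • M + t • N) (Jv u)) =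
      (1 - t) * om (M u) (M (Jv u)) + t * om (N u) (N (Jv u)) -
        t * (1 - t) * om ((M - N) u) ((M - N) (Jv u)) := by
    simp only [_root_.add_apply, _root_.sub_apply, _root_.smul_apply, om_add_left, om_add_right,
      om_sub_left, om_sub_right, om_smul_left, om_smul_right]
    ring
  rw [h6]
  have h7 : om ((M - N) u) ((M - N) (Jv u)) ≤ (2 * n * (4 * δ / ε ^ 2)) * ip u u / 2 := by
    have := mul_le_mul_of_nonneg_right h3 hpos.le
    linarith
  have h8 : t * (1 - t) ≤ 1 / 4 := by nlinarith [sq_nonneg (t - 1 / 2)]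
  have h9 : 0 ≤ t * (1 - t) := mul_nonneg ht.1 (by linarith [ht.2])
  have h10 : t * (1 - t) * om ((M - N) u) ((M - N) (Jv u)) ≤
      (n * δ / ε ^ 2) * ip u u := by
    have e1 : t * (1 - t) * om ((M - N) u) ((M - N) (Jv u)) ≤
        t * (1 - t) * ((2 * n * (4 * δ / ε ^ 2)) * ip u u / 2) :=
      mul_le_mul_of_nonneg_left h7 h9
    have e2 : t * (1 - t) * ((2 * n * (4 * δ / ε ^ 2)) * ip u u / 2) ≤
        1 / 4 * ((2 * n * (4 * δ / ε ^ 2)) * ip u u / 2) := by
      refine mul_le_mul_of_nonneg_right h8 ?_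
      positivity
    refine e1.trans (e2.trans (le_of_eq ?_))
    ring
  have h11 : (1 - t) * ((1 - κ / 2) * ip u u) ≤ (1 - t) * om (M u) (M (Jv u)) :=
    mul_le_mul_of_nonneg_left h1 (by linarith [ht.2])
  have h12 : t * ((1 - κ / 2) * ip u u) ≤ t * om (N u) (N (Jv u)) :=
    mul_le_mul_of_nonneg_left h2 ht.1
  have h13 : 0 < (1 - κ / 2 - n * δ / ε ^ 2) * ip u u := mul_pos (by linarith) hpos
  nlinarith [h10, h11, h12, h13]

/-- the means at all scales up to `ε` -/
theorem good_scales {H : V n → V n} (hH : ContDiff ℝ ∞ H)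
    (hsH : ∀ x u v, om (fderiv ℝ H x u) (fderiv ℝ H x v) = om u v)
    {S : V n →L[ℝ] V n} (hS : ∀ u v, om (S u) (S v) = om u v) {ε : ℝ}
    (hε : 0 < ε) (ho : ∀ x, ∀ s ∈ Ioc (0 : ℝ) ε,
      ∫ y in Icc (0 : V n) 1, frob (S.comp (fderiv ℝ H (x + sc s y) - mean H (sc s) x)) < 2) :
    ∀ s ∈ Icc (0 : ℝ) 1, ∀ x, Good (mean H (sc (ε * s)) x) := by
  intro s hs x
  rcases hs.1.eq_or_lt with h | h
  · rw [← h, mul_zero, mean_zero]
    exact good_of_symp (hsH x)
  · exact good_of_osc hH hsH hS _ _ (ho x (ε * s) ⟨mul_pos hε h,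
      mul_le_of_le_one_right hε.le hs.2⟩)

theorem sc_smooth (ε : ℝ) : ContDiff ℝ ∞ fun s : ℝ => (sc (ε * s) : V n →L[ℝ] V n) :=
  (contDiff_const.mul contDiff_id).smul contDiff_const

theorem sc_zero : (sc 0 : V n →L[ℝ] V n) = 0 := zero_smul _ _

/-- **`C⁰`-close symplectomorphisms whose derivatives have small mean oscillation are isotopic.** -/
theorem isotopic_of_close {F G : V n → V n} (hF : IsTorusSymp A F) (hG : IsTorusSymp A G)
    {S : V n →L[ℝ] V n} (hS : ∀ u v, om (S u) (S v) = om u v)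
    {ε κ δ : ℝ} (hε : 0 < ε)
    (hoF : ∀ x, ∀ s ∈ Ioc (0 : ℝ) ε,
      ∫ y in Icc (0 : V n) 1, frob (S.comp (fderiv ℝ F (x + sc s y) - mean F (sc s) x)) ≤ κ)
    (hoG : ∀ x, ∀ s ∈ Ioc (0 : ℝ) ε,
      ∫ y in Icc (0 : V n) 1, frob (S.comp (fderiv ℝ G (x + sc s y) - mean G (sc s) x)) ≤ κ)
    (hδ : ∀ x, ip (S (F x - G x)) (S (F x - G x)) ≤ δ) (hκ : κ / 2 + n * δ / ε ^ 2 < 1) :
    SymplecticallyIsotopic A F G := by
  have hδ0 : 0 ≤ δ := (ip_self_nonneg _).trans (hδ 0)
  have hκ2 : κ < 2 := by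
    have : 0 ≤ n * δ / ε ^ 2 := by positivity
    linarith
  refine isotopic_of_means_pair hF hG (T := fun s => sc (ε * s)) (sc_smooth ε)
    (by simp only [mul_zero]; exact sc_zero)
    (good_scales hF.smooth hF.symplectic hS hε fun x s hs => (hoF x s hs).trans_lt hκ2)
    (good_scales hG.smooth hG.symplectic hS hε fun x s hs => (hoG x s hs).trans_lt hκ2) ?_
  intro t ht x
  simp only [mul_one]
  exact good_interp hF.smooth hF.symplectic hG.smooth hG.symplectic hS hε x
    (hoF x ε ⟨hε, le_rfl⟩) (hoG x ε ⟨hε, le_rfl⟩) hδ hκ ht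

theorem sc_one : (sc 1 : V n →L[ℝ] V n) = lin 1 := by
  ext1 v
  rw [sc_apply, one_smul, lin_one]

/-- **Small mean oscillation** on all cubes of side at most one -/
theorem isotopic_of_osc {F : V n → V n} (hF : IsTorusSymp A F)
    {S : V n →L[ℝ] V n} (hS : ∀ u v, om (S u) (S v) = om u v)
    (ho : ∀ x, ∀ s ∈ Ioc (0 : ℝ) 1,
      ∫ y in Icc (0 : V n) 1, frob (S.comp (fderiv ℝ F (x + sc s y) - mean F (sc s) x)) < 2) :
    SymplecticallyIsotopic A (fun x => lin A x) F := by
  have h1 := good_scales hF.smooth hF.symplectic hS one_pos ho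
  refine isotopic_of_means hF (T := fun s => sc (1 * s)) (sc_smooth 1)
    (by simp only [mul_zero]; exact sc_zero) (B := 1) (by simp)
    (by simp only [mul_one]; exact sc_one) ?_
  intro s hs ρ hρ x u hu
  exact h1 s hs x ρ hρ u hu

theorem symp_comp {F : V n → V n} (hF : Differentiable ℝ F)
    (hsy : ∀ x u v, om (fderiv ℝ F x u) (fderiv ℝ F x v) = om u v)
    {S : V n →L[ℝ] V n} (hS : ∀ u v, om (S u) (S v) = om u v) (x u v : V n) :
    om (fderiv ℝ (fun x => S (F x)) x u) (fderiv ℝ (fun x => S (F x)) x v) = om u v := by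
  have h2 : HasFDerivAt (fun x => S (F x)) (S.comp (fderiv ℝ F x)) x :=
    S.hasFDerivAt.comp _ (hF x).hasFDerivAt
  rw [h2.fderiv]
  exact (hS _ _).trans (hsy x u v)

/-- **Pinched symplectomorphisms** -/
theorem isotopic_of_pinched {F : V n → V n} (hF : IsTorusSymp A F)
    {S : V n →L[ℝ] V n} (hS : ∀ u v, om (S u) (S v) = om u v) {c : ℝ} (hc0 : 0 < c)
    (hL : ∀ x y, ip (S (F x - F y)) (S (F x - F y)) ≤ c * ip (x - y) (x - y))
    (hp : (n : ℝ) * (n + 1) * (c - c⁻¹) < 3) :
    SymplecticallyIsotopic A (fun x => lin A x) F := by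
  have hinj : Function.Injective (S : V n →ₗ[ℝ] V n) := by
    rw [injective_iff_map_eq_zero]
    intro w hw
    refine om_nondeg w fun v => ?_
    have hw' : S w = 0 := hw
    rw [← hS, hw', om_zero_left]
  set e : V n ≃L[ℝ] V n := (LinearEquiv.ofInjectiveEndo _ hinj).toContinuousLinearEquiv
  have he : ∀ v, e v = S v := fun v => rfl
  obtain ⟨H, hH, hl, hr⟩ := hF.inverse
  have hinv : ∃ H' : V n → V n, ContDiff ℝ ∞ H' ∧ Function.LeftInverse H' (fun x => S (F x)) ∧
      Function.RightInverse H' (fun x => S (F x)) := by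
    refine ⟨fun y => H (e.symm y), hH.comp e.symm.contDiff, fun x => ?_, fun y => ?_⟩
    · simp only
      rw [← he, e.symm_apply_apply, hl]
    · simp only
      rw [hr, ← he, e.apply_symm_apply]
  have hsm : ContDiff ℝ ∞ fun x => S (F x) := S.contDiff.comp hF.smooth
  refine isotopic_of_osc hF hS fun x s hs => ?_
  have h1 := osc_of_pinched (F := fun x => S (F x)) hsm (symp_comp hF.diff hF.symplectic hS) hinv
    hc0 (fun x y => by
      have := hL x y
      rwa [map_sub] at this) hp hs.1 x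
  rw [mean_comp hF.smooth] at h1
  have h2 : ∀ y, fderiv ℝ (fun x => S (F x)) (x + sc s y) - S.comp (mean F (sc s) x) =
      S.comp (fderiv ℝ F (x + sc s y) - mean F (sc s) x) := fun y => by
    have h3 : HasFDerivAt (fun x => S (F x)) (S.comp (fderiv ℝ F (x + sc s y))) (x + sc s y) :=
      S.hasFDerivAt.comp _ (hF.diff _).hasFDerivAt
    rw [h3.fderiv, ContinuousLinearMap.comp_sub]
  simp only [h2] at h1
  exact h1

end Pool.Agent.Helper597_mos
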