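import Pool.Agent.Helper597_mos.Lip

/-!
# Pinched symplectomorphisms
-/

set_option autoImplicit false
set_option linter.unusedSectionVars false

open Set Filter Topology MeasureTheory
open scoped ContDiff NNReal

noncomputable section

namespace Pool.Agent.Helper597_mos

open Pool.Agent.Helper597_torsymp

variable {n : ℕ} {A : Matrix (Fin n ⊕ Fin n) (Fin n ⊕ Fin n) ℤ}

/-! ### Some integrals -/

theorem integral_coord {f : ℝ → ℝ} (hf : Continuous f) (α : Fin n ⊕ Fin n) :
    ∫ y in Icc (0 : V n) 1, f (y α) = ∫ t in (0 : ℝ)..1, f t := by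
  have hc : Continuous fun y : V n => f (y α) := hf.comp (continuous_apply α)
  rw [integral_refresh hc α]
  simp only [Function.update_self]
  rw [integral_cube_const, integral_Icc_eq_integral_Ioc,
    ← intervalIntegral.integral_of_le zero_le_one]

theorem integral_sq_sub (a : ℝ) (α : Fin n ⊕ Fin n) :
    ∫ y in Icc (0 : V n) 1, (a - y α) ^ 2 = a ^ 2 - a + 1 / 3 := by
  have h := integral_coord (n := n) (f := fun t => (a - t) ^ 2) (by fun_prop) α
  rw [h]
  have e : ∀ t : ℝ, (a - t) ^ 2 = a ^ 2 - 2 * a * t + t ^ 2 := fun t => by ring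
  simp only [e]
  rw [intervalIntegral.integral_add (by
      exact (Continuous.intervalIntegrable (by fun_prop) _ _))
      (by exact (Continuous.intervalIntegrable (by fun_prop) _ _)),
    intervalIntegral.integral_sub (by
      exact (Continuous.intervalIntegrable (by fun_prop) _ _))
      (by exact (Continuous.intervalIntegrable (by fun_prop) _ _)),
    intervalIntegral.integral_const_mul, integral_pow, integral_id]
  simp
  ring

theorem integral_sq_sub_sq (α : Fin n ⊕ Fin n) :
    ∫ y in Icc (0 : V n) 1, (y α ^ 2 - y α + 1 / 3) = 1 / 6 := by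
  have h := integral_coord (n := n) (f := fun t => t ^ 2 - t + 1 / 3) (by fun_prop) α
  rw [h]
  rw [intervalIntegral.integral_add (by
      exact (Continuous.intervalIntegrable (by fun_prop) _ _))
      (by exact (Continuous.intervalIntegrable (by fun_prop) _ _)),
    intervalIntegral.integral_sub (by
      exact (Continuous.intervalIntegrable (by fun_prop) _ _))
      (by exact (Continuous.intervalIntegrable (by fun_prop) _ _)),
    integral_pow, integral_id]
  simp
  norm_num

/-- the squared distance in a face -/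
def fd (α : Fin n ⊕ Fin n) (y y' : V n) : ℝ :=
  ∑ i ∈ Finset.univ.erase α, (y i - y' i) ^ 2

theorem ip_update (α : Fin n ⊕ Fin n) (y y' : V n) :
    ip (Function.update y' α 0 - Function.update y α 0)
      (Function.update y' α 0 - Function.update y α 0) = fd α y y' := by
  unfold ip fd
  rw [← Finset.add_sum_erase _ _ (Finset.mem_univ α)]
  simp only [Pi.sub_apply, Function.update_self, sub_self, mul_zero, zero_add]
  refine Finset.sum_congr rfl fun i hi => ?_
  rw [Function.update_of_ne (Finset.ne_of_mem_erase hi),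
    Function.update_of_ne (Finset.ne_of_mem_erase hi)]
  ring

theorem integral_fd (α : Fin n ⊕ Fin n) (y : V n) :
    ∫ y' in Icc (0 : V n) 1, fd α y y' =
      ∑ i ∈ Finset.univ.erase α, (y i ^ 2 - y i + 1 / 3) := by
  unfold fd
  rw [integral_finsetSum]
  · exact Finset.sum_congr rfl fun i _ => integral_sq_sub _ _
  · intro i _
    exact integrable_cube ((continuous_const.sub (continuous_apply i)).pow 2)

theorem integral_integral_fd (α : Fin n ⊕ Fin n) :
    ∫ y in Icc (0 : V n) 1, ∫ y' in Icc (0 : V n) 1, fd α y y' = (2 * n - 1) / 6 := by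
  simp only [integral_fd]
  rw [integral_finsetSum]
  · simp only [integral_sq_sub_sq]
    rw [Finset.sum_const, Finset.card_erase_of_mem (Finset.mem_univ α), Finset.card_univ,
      Fintype.card_sum, Fintype.card_fin, nsmul_eq_mul]
    have hn : 1 ≤ n + n := by
      rcases α with i | i <;> have := i.2 <;> omega
    push_cast [Nat.cast_sub hn]
    ring
  · intro i _
    refine integrable_cube ?_
    have h : Continuous fun y : V n => y i := continuous_apply i
    exact ((h.pow 2).sub h).add continuous_const

/-! ### The mean of the derivative -/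

/-- the scaling -/
def sc (s : ℝ) : V n →L[ℝ] V n := s • ContinuousLinearMap.id ℝ (V n)

theorem sc_apply (s : ℝ) (v : V n) : sc s v = s • v := rfl

theorem continuous_update_zero (α : Fin n ⊕ Fin n) :
    Continuous fun y : V n => Function.update y α 0 :=
  continuous_id.update α continuous_const

theorem mean_lower {F : V n → V n} (hF : ContDiff ℝ ∞ F) {c : ℝ} (hc : 1 ≤ c)
    (hL : ∀ x y, ip (F x - F y) (F x - F y) ≤ c * ip (x - y) (x - y))
    (hl : ∀ x y, ip (x - y) (x - y) ≤ c * ip (F x - F y) (F x - F y)) {s : ℝ} (hs : 0 < s)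
    (x : V n) (α : Fin n ⊕ Fin n) :
    c⁻¹ - (c - c⁻¹) * ((2 * n - 1) / 6) ≤ ip (mean F (sc s) x (bv α)) (mean F (sc s) x (bv α)) := by
  have hc0 : 0 < c := lt_of_lt_of_le one_pos hc
  set z : V n → V n := fun y => x + sc s (Function.update y α 0) with hz
  have hzc : Continuous z := continuous_const.add ((sc s).continuous.comp
    (continuous_update_zero α))
  set Δ : V n → V n := fun y => F (z y + sc s (bv α)) - F (z y) with hΔ
  have hΔc : Continuous Δ := (hF.continuous.comp (hzc.add continuous_const)).sub
    (hF.continuous.comp hzc)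
  have h1 : mean F (sc s) x (sc s (bv α)) = ∫ y in Icc (0 : V n) 1, Δ y :=
    mean_apply_image hF (sc s) x α
  set m := ∫ y in Icc (0 : V n) 1, Δ y with hm
  have hbb : ip (bv α : V n) (bv α) = 1 := by
    unfold ip bv
    rw [Finset.sum_eq_single α]
    · simp
    · intro b _ hb
      simp [hb]
    · simp
  -- the pointwise estimate
  have h2 : ∀ y y', s ^ 2 * (c⁻¹ - (c - c⁻¹) * fd α y y') ≤ ip (Δ y') (Δ y) := by
    intro y y'
    have h3 := four_points hc0 hL hl (z y) (z y') (sc s (bv α))
    rw [ip_comm] at h3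
    have h4 : z y' - z y = s • (Function.update y' α 0 - Function.update y α 0) := by
      simp only [hz, sc_apply]
      rw [smul_sub]
      abel
    have h5 : ip (sc s (bv α)) (sc s (bv α)) = s ^ 2 := by
      rw [sc_apply, ip_smul_left, ip_smul_right, hbb]
      ring
    rw [h4, ip_smul_left, ip_smul_right, ip_update, ip_comm (sc s (bv α)), h5] at h3
    have h6 := ip_comm (F (z y + (sc s) (bv α)) - F (z y)) (F (z y' + (sc s) (bv α)) - F (z y'))
    simp only [hΔ]
    calc s ^ 2 * (c⁻¹ - (c - c⁻¹) * fd α y y') = c⁻¹ * s ^ 2 - (c - c⁻¹) * (s * (s * fd α y y')) :=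
          by ring
      _ ≤ _ := h3.trans h6.le
  have hfc : Continuous fun p : V n × V n => fd α p.1 p.2 :=
    continuous_finsetSum _ fun i _ => (((continuous_apply i).comp continuous_fst).sub
      ((continuous_apply i).comp continuous_snd)).pow 2
  have hfc1 : ∀ y, Continuous fun y' : V n => fd α y y' := fun y =>
    hfc.comp (continuous_const.prodMk continuous_id)
  have hfc2 : Continuous fun y : V n => ∫ y' in Icc (0 : V n) 1, fd α y y' :=
    continuous_parametric_integral_of_continuous hfc isCompact_Icc
  have h7 : ∀ y, s ^ 2 * (c⁻¹ - (c - c⁻¹) * ∫ y' in Icc (0 : V n) 1, fd α y y') ≤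
      ip m (Δ y) := by
    intro y
    have e1 : ∫ y' in Icc (0 : V n) 1, s ^ 2 * (c⁻¹ - (c - c⁻¹) * fd α y y') ≤
        ∫ y' in Icc (0 : V n) 1, ip (Δ y') (Δ y) := by
      refine integral_mono (integrable_cube ?_) (integrable_cube ?_) fun y' => h2 y y'
      · exact continuous_const.mul (continuous_const.sub (continuous_const.mul (hfc1 y)))
      · exact continuous_ip hΔc continuous_const
    have e2 : Continuous fun y' => (c - c⁻¹) * fd α y y' := continuous_const.mul (hfc1 y)
    rw [integral_ip hΔc, ← hm, integral_const_mul,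
      integral_cube_sub continuous_const e2, integral_cube_const,
      integral_const_mul] at e1
    exact e1
  have h8 : s ^ 2 * (c⁻¹ - (c - c⁻¹) * ((2 * n - 1) / 6)) ≤ ip m m := by
    have e1 : ∫ y in Icc (0 : V n) 1,
        s ^ 2 * (c⁻¹ - (c - c⁻¹) * ∫ y' in Icc (0 : V n) 1, fd α y y') ≤
        ∫ y in Icc (0 : V n) 1, ip (Δ y) m := by
      refine integral_mono (integrable_cube ?_) (integrable_cube ?_) fun y => ?_
      · exact continuous_const.mul (continuous_const.sub (continuous_const.mul hfc2))
      · exact continuous_ip hΔc continuous_const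
      · simp only
        rw [ip_comm (Δ y) m]
        exact h7 y
    have e2 : Continuous fun y => (c - c⁻¹) * ∫ y' in Icc (0 : V n) 1, fd α y y' :=
      continuous_const.mul hfc2
    rw [integral_ip hΔc, ← hm, integral_const_mul,
      integral_cube_sub continuous_const e2, integral_cube_const,
      integral_const_mul, integral_integral_fd] at e1
    exact e1
  rw [← h1, sc_apply, map_smul, ip_smul_left, ip_smul_right] at h8
  have h9 : 0 < s ^ 2 := by positivity
  have h10 : s ^ 2 * (c⁻¹ - (c - c⁻¹) * ((2 * n - 1) / 6)) ≤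
      s ^ 2 * ip (mean F (sc s) x (bv α)) (mean F (sc s) x (bv α)) := by
    refine h8.trans (le_of_eq (by ring))
  exact le_of_mul_le_mul_left h10 h9

theorem Jv_bv (i : Fin n) : Jv (bv (Sum.inl i)) = bv (Sum.inr i) := by
  funext j
  rcases j with j | j
  · simp [Jv, bv]
  · by_cases hij : j = i
    · subst hij
      simp [Jv, bv]
    · have : (Sum.inl j : Fin n ⊕ Fin n) ≠ Sum.inl i := fun h => hij (Sum.inl_injective h)
      have h' : (Sum.inr j : Fin n ⊕ Fin n) ≠ Sum.inr i := fun h => hij (Sum.inr_injective h)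
      simp [Jv, bv, this, h']

theorem ip_bv (α : Fin n ⊕ Fin n) : ip (bv α : V n) (bv α) = 1 := by
  unfold ip bv
  rw [Finset.sum_eq_single α]
  · simp
  · intro b _ hb
    simp [hb]
  · simp

/-- the oscillation of the derivative of a pinched symplectomorphism -/
theorem osc_of_pinched {F : V n → V n} (hF : ContDiff ℝ ∞ F)
    (hsy : ∀ x u v, om (fderiv ℝ F x u) (fderiv ℝ F x v) = om u v)
    (hinv : ∃ H : V n → V n, ContDiff ℝ ∞ H ∧ Function.LeftInverse H F ∧
      Function.RightInverse H F) {c : ℝ} (hc0 : 0 < c)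
    (hL : ∀ x y, ip (F x - F y) (F x - F y) ≤ c * ip (x - y) (x - y))
    (hp : (n : ℝ) * (n + 1) * (c - c⁻¹) < 3) {s : ℝ} (hs : 0 < s) (x : V n) :
    ∫ y in Icc (0 : V n) 1, frob (fderiv ℝ F (x + sc s y) - mean F (sc s) x) < 2 := by
  rcases Nat.eq_zero_or_pos n with rfl | hn
  · have h0 : ∀ L : V 0 →L[ℝ] V 0, frob L = 0 := fun L => by
      unfold frob
      exact Finset.sum_eq_zero fun β _ => by rcases β with i | i <;> exact i.elim0
    simp only [h0]
    simp
  have hdiff : Differentiable ℝ F := hF.differentiable (by simp)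
  have hD := deriv_of_lip hdiff hL
  have hDl := deriv_lower hsy hD
  have hl := lip_lower hdiff hsy hinv hL
  have hc : 1 ≤ c := by
    have i0 : Fin n := ⟨0, hn⟩
    have e1 := hD 0 (bv (Sum.inl i0))
    have e2 := hDl 0 (bv (Sum.inl i0))
    rw [ip_bv] at e1 e2
    by_contra hlt
    push Not at hlt
    nlinarith
  have hcont : Continuous fun y => fderiv ℝ F (x + sc s y) :=
    (hF.continuous_fderiv (by simp)).comp (continuous_const.add (sc s).continuous)
  have hcont' : ∀ w : V n, Continuous fun y => fderiv ℝ F (x + sc s y) w := fun w =>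
    hcont.clm_apply continuous_const
  have hcont'' : ∀ w : V n, Continuous fun y =>
      (fderiv ℝ F (x + sc s y) - mean F (sc s) x) w := fun w =>
    (hcont.sub continuous_const).clm_apply continuous_const
  unfold frob
  rw [integral_finsetSum _ fun β _ => integrable_cube (continuous_ip (hcont'' _) (hcont'' _))]
  have h1 : ∀ β : Fin n ⊕ Fin n, ∫ y in Icc (0 : V n) 1,
      ip ((fderiv ℝ F (x + sc s y) - mean F (sc s) x) (bv β))
        ((fderiv ℝ F (x + sc s y) - mean F (sc s) x) (bv β)) ≤
      (∫ y in Icc (0 : V n) 1, ip (fderiv ℝ F (x + sc s y) (bv β))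
        (fderiv ℝ F (x + sc s y) (bv β))) - (c⁻¹ - (c - c⁻¹) * ((2 * n - 1) / 6)) := by
    intro β
    rw [covariance_ip hF]
    have := mean_lower hF hc hL hl hs x β
    linarith
  have h2 : ∑ β : Fin n ⊕ Fin n, ∫ y in Icc (0 : V n) 1, ip (fderiv ℝ F (x + sc s y) (bv β))
      (fderiv ℝ F (x + sc s y) (bv β)) ≤ n * (c + c⁻¹) := by
    rw [Fintype.sum_sum_type, ← Finset.sum_add_distrib]
    have h3 : ∀ i : Fin n, (∫ y in Icc (0 : V n) 1, ip (fderiv ℝ F (x + sc s y) (bv (Sum.inl i)))
        (fderiv ℝ F (x + sc s y) (bv (Sum.inl i)))) + (∫ y in Icc (0 : V n) 1,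
        ip (fderiv ℝ F (x + sc s y) (bv (Sum.inr i)))
          (fderiv ℝ F (x + sc s y) (bv (Sum.inr i)))) ≤ c + c⁻¹ := by
      intro i
      rw [← integral_cube_add (continuous_ip (hcont' _) (hcont' _))
        (continuous_ip (hcont' _) (hcont' _))]
      have e1 : ∫ y in Icc (0 : V n) 1, (ip (fderiv ℝ F (x + sc s y) (bv (Sum.inl i)))
          (fderiv ℝ F (x + sc s y) (bv (Sum.inl i))) +
          ip (fderiv ℝ F (x + sc s y) (bv (Sum.inr i)))
          (fderiv ℝ F (x + sc s y) (bv (Sum.inr i)))) ≤
          ∫ y in Icc (0 : V n) 1, (c + c⁻¹) := by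
        refine integral_mono (integrable_cube ?_) (integrable_cube continuous_const) fun y => ?_
        · exact (continuous_ip (hcont' _) (hcont' _)).add (continuous_ip (hcont' _) (hcont' _))
        · simp only
          have := pairing (S := fderiv ℝ F (x + sc s y)) (hsy _) hc (hD _) (hDl _)
            (bv (Sum.inl i))
          rw [Jv_bv, ip_bv, mul_one] at this
          exact this
      rwa [integral_cube_const] at e1
    refine (Finset.sum_le_sum fun i _ => h3 i).trans (le_of_eq ?_)
    rw [Finset.sum_const, Finset.card_univ, Fintype.card_fin, nsmul_eq_mul]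
  refine (Finset.sum_le_sum fun β _ => h1 β).trans_lt ?_
  rw [Finset.sum_sub_distrib, Finset.sum_const, Finset.card_univ, Fintype.card_sum,
    Fintype.card_fin, nsmul_eq_mul]
  push_cast
  nlinarith [h2, hp]

end Pool.Agent.Helper597_mos
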